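import Pool.Agent.H950.NT.Clu

/-!
Two different large clusters do not have almost the same diameter.
-/

set_option autoImplicit false

namespace Pool.Agent.H950.NT

open H974 H12S Finset H342P

/-- One arm. -/
theorem ex_arm : ∃ C c : ℝ, 0 < C ∧ 0 < c ∧ ∀ (ρ R : ℕ), 1 ≤ ρ → ρ ≤ R → ∀ (c1 c2 : ℤ)
    (S : Finset Edg), PQ (1/2) S (fun F => Crs c1 c2 ρ R ↑F) ≤ C * ((ρ:ℝ) / R) ^ c := by
  obtain ⟨κ, hκ, hW⟩ := win_half
  obtain ⟨C, c, hC, hc, h⟩ := win_arm_of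
    (fun {q κ n} h {m} hm hmn c1 c2 S => win_blk h hm hmn c1 c2 S) κ hκ
  exact ⟨C, c, hC, hc, fun ρ R h1 h2 c1 c2 S => (h (1/2) R (hW R) ρ R h1 h2 le_rfl c1 c2 S).1⟩

theorem sum_pick {ι : Type*} (S : Finset Edg) (T : Finset ι) (A : Finset Edg → Prop)
    (f : Finset Edg → ι) :
    ∑ i ∈ T, PQ (1/2) S (fun F => A F ∧ f F = i) ≤ PQ (1/2) S A := by
  classical
  unfold PQ Pr
  rw [← Ex_sum]
  apply Ex_mono okh
  intro F _
  by_cases hA : A F
  · rw [ind_of hA]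
    by_cases hf : f F ∈ T
    · rw [Finset.sum_eq_single (f F)]
      · exact (ind_of (show A F ∧ f F = f F from ⟨hA, rfl⟩)).le
      · intro i _ hi
        exact ind_not_of (fun h => hi h.2.symm)
      · exact fun h => absurd hf h
    · rw [Finset.sum_eq_zero]
      · norm_num
      · intro i hi
        exact ind_not_of (fun h => hf (h.2 ▸ hi))
  · rw [ind_not_of hA, Finset.sum_eq_zero]
    intro i _
    exact ind_not_of (fun h => hA h.1)

/-- A large cluster has a vertex near a corner. -/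
def EvC (n q D : ℕ) (F : Finset Edg) : Prop :=
  ∃ v z, v ∈ vb n ∧ z ∈ cl n F v ∧ ¬ NCor n q z ∧ D ≤ DN n F v

theorem pr_EvC {C c : ℝ} (hA : ∀ (ρ R : ℕ), 1 ≤ ρ → ρ ≤ R → ∀ (c1 c2 : ℤ)
    (S : Finset Edg), PQ (1/2) S (fun F => Crs c1 c2 ρ R ↑F) ≤ C * ((ρ:ℝ) / R) ^ c)
    {n q R D : ℕ} (hq : 1 ≤ q) (hR : q ≤ R) (hD : 8 * R ^ 2 ≤ D) :
    PQ (1/2) (RE 0 n 0 n) (EvC n q D) ≤ 4 * (C * ((q:ℝ) / R) ^ c) := by
  classical
  set T : Finset (ℤ × ℤ) := ({0, (n:ℤ)} : Finset ℤ) ×ˢ ({0, (n:ℤ)} : Finset ℤ) with hT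
  have h1 : PQ (1/2) (RE 0 n 0 n) (EvC n q D) ≤
      PQ (1/2) (RE 0 n 0 n) (fun F => ∃ c ∈ T, Crs c.1 c.2 q R ↑F) := by
    apply Pr_mono okh
    rintro F hF ⟨v, z, hv, hz, hcor, hDN⟩
    have hz' := mem_cl.mp hz
    have hzb := mem_vb.mp hz'.1
    unfold inR at hzb
    unfold NCor InI at hcor
    push Not at hcor
    obtain ⟨k1, k2⟩ := hcor
    have key : ∃ c ∈ T, inR (c.1 - q) (c.1 + q) (c.2 - q) (c.2 + q) z := by
      unfold inR
      rw [hT]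
      by_cases e1 : (q:ℤ) ≤ z.1
      · by_cases e2 : (q:ℤ) ≤ z.2
        · exact ⟨(n, n), by simp, by simp only; have := k1 e1; have := k2 e2; omega⟩
        · exact ⟨(n, 0), by simp, by simp only; have := k1 e1; omega⟩
      · by_cases e2 : (q:ℤ) ≤ z.2
        · exact ⟨(0, n), by simp, by simp only; have := k2 e2; omega⟩
        · exact ⟨(0, 0), by simp, by simp only; omega⟩
    obtain ⟨c, hc, hin⟩ := key
    obtain ⟨w, hw, hf⟩ := exists_far (X := cl n F v) ⟨z, hz⟩ (hD.trans hDN) c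
    refine ⟨c, hc, z, w, hin, ?_, hz'.2.symm.trans (mem_cl.mp hw).2⟩
    unfold Far at hf
    exact hf
  refine h1.trans ((PQ_union _ _ _).trans ?_)
  refine (Finset.sum_le_sum (fun c _ => hA q R hq hR c.1 c.2 _)).trans ?_
  rw [Finset.sum_const, nsmul_eq_mul]
  have h2 : (T.card : ℝ) ≤ 4 := by
    have : T.card ≤ 4 := by
      rw [hT, Finset.card_product]
      have := Finset.card_le_two (a := (0:ℤ)) (b := (n:ℤ))
      nlinarith
    exact_mod_cast this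
  have h3 : 0 ≤ C * ((q:ℝ) / R) ^ c := (Pr_nonneg okh _ _).trans (hA q R hq hR 0 0 ∅)
  exact mul_le_mul_of_nonneg_right h2 h3

open Classical in
/-- The chosen direction and extremal vertices. -/
noncomputable def Pk (M : ℕ) (X : Finset Vtx) : (ℤ × ℤ) × Vtx × Vtx :=
  if h : ∃ p : (ℤ × ℤ) × Vtx × Vtx, Good M X (DX X) p.1 p.2.1 p.2.2 then h.choose else
    ((0, 0), (0, 0), (0, 0))

theorem Pk_good {M : ℕ} (hM : 1 ≤ M) {X : Finset Vtx} (hX : X.Nonempty) (hD : 0 < DX X) :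
    Good M X (DX X) (Pk M X).1 (Pk M X).2.1 (Pk M X).2.2 := by
  obtain ⟨a, ha, b, hb, h⟩ := ex_DX hX
  obtain ⟨u, z, w, hg⟩ := exists_good hM ha hb (fun c hc d hd => by rw [h]; exact le_DX hc hd)
    (by rw [h]; exact_mod_cast hD)
  rw [h] at hg
  have hex : ∃ p : (ℤ × ℤ) × Vtx × Vtx, Good M X (DX X) p.1 p.2.1 p.2.2 := ⟨(u, z, w), hg⟩
  unfold Pk
  rw [dif_pos hex]
  exact hex.choose_spec

/-- Another large cluster comes near one of the chosen extremal vertices. -/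
def EvB (n q D M : ℕ) (F : Finset Edg) : Prop :=
  ∃ v v', Can n F v ∧ Can n F v' ∧ v ≠ v' ∧ D ≤ DN n F v ∧ D ≤ DN n F v' ∧
    ∃ y ∈ cl n F v, y ∈ bx (Pk M (cl n F v')).2.1 q ∨ y ∈ bx (Pk M (cl n F v')).2.2 q

theorem pr_EvB {C' C c : ℝ} (hC : ∀ (S : Finset Edg) (u : ℤ × ℤ), u.2 ≠ 0 → ∀ (m ρ : ℕ), 1 ≤ m →
    4 * m ≤ ρ → ∀ c : ℤ × ℤ, ∑ z ∈ bx c m, PQ (1/2) S (fun F => XM u ρ z ↑F) ≤ C')
    (hA : ∀ (ρ R : ℕ), 1 ≤ ρ → ρ ≤ R → ∀ (c1 c2 : ℤ)
    (S : Finset Edg), PQ (1/2) S (fun F => Crs c1 c2 ρ R ↑F) ≤ C * ((ρ:ℝ) / R) ^ c)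
    {n q R D M m1 : ℕ} (hM : 1 ≤ M) (hq : 1 ≤ q) (hR : q ≤ R) (hD : 8 * R ^ 2 ≤ D)
    (hm1 : 1 ≤ m1) (hD1 : 128 * m1 ^ 2 ≤ D) :
    PQ (1/2) (RE 0 n 0 n) (EvB n q D M) ≤
      2 * (C * ((q:ℝ) / R) ^ c) * (C' * (((n / (2 * m1 + 1) + 1 : ℕ) : ℝ)) ^ 2) := by
  classical
  set β : ℝ := C * ((q:ℝ) / R) ^ c with hβ
  have hβ0 : 0 ≤ β := (Pr_nonneg okh _ _).trans (hA q R hq hR 0 0 ∅)
  have hD0 : 0 < D := by nlinarith
  have h1 : PQ (1/2) (RE 0 n 0 n) (EvB n q D M) ≤ PQ (1/2) (RE 0 n 0 n) (fun F =>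
      ∃ v' ∈ vb n, ∃ p ∈ vb n ×ˢ vb n,
        ((Can n F v' ∧ D ≤ DN n F v') ∧ (Pk M (cl n F v')).2 = p) ∧
        ((fun (_ G : Finset Edg) => Crs p.1.1 p.1.2 q R (↑G : Set Edg) ∨
          Crs p.2.1 p.2.2 q R (↑G : Set Edg)) (KV n F v') (F \ KV n F v'))) := by
    apply Pr_mono okh
    rintro F hF ⟨v, v', hv, hv', hne, hDv, hDv', y, hy, hnear⟩
    have hg := Pk_good hM (X := cl n F v') ⟨v', self_cl hv'.1⟩
      (lt_of_lt_of_le hD0 hDv')
    refine ⟨v', hv'.1, (Pk M (cl n F v')).2, ?_, ⟨⟨hv', hDv'⟩, rfl⟩, ?_⟩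
    · rw [Finset.mem_product]
      exact ⟨(mem_cl.mp hg.hz).1, (mem_cl.mp hg.hw).1⟩
    · have hy' := mem_cl.mp hy
      have hnr : ¬ Reach (↑F : Set Edg) v' y := fun h =>
        hne (Can_unique hv hv' (hy'.2.trans h.symm))
      have key : ∀ z : Vtx, y ∈ bx z q → Crs z.1 z.2 q R (↑(F \ KV n F v') : Set Edg) := by
        intro z hyz
        obtain ⟨w, hw, hf⟩ := exists_far (X := cl n F v) ⟨y, hy⟩ (hD.trans hDv) z
        refine ⟨y, w, mem_bx.mp hyz, hf, ?_⟩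
        exact reach_fresh hF hnr (hy'.2.symm.trans (mem_cl.mp hw).2)
      rcases hnear with h | h
      · exact Or.inl (key _ h)
      · exact Or.inr (key _ h)
  refine h1.trans ((PQ_union _ _ _).trans ?_)
  have h2 : ∀ v' ∈ vb n, PQ (1/2) (RE 0 n 0 n) (fun F =>
      ∃ p ∈ vb n ×ˢ vb n,
        ((Can n F v' ∧ D ≤ DN n F v') ∧ (Pk M (cl n F v')).2 = p) ∧
        ((fun (_ G : Finset Edg) => Crs p.1.1 p.1.2 q R (↑G : Set Edg) ∨
          Crs p.2.1 p.2.2 q R (↑G : Set Edg)) (KV n F v') (F \ KV n F v'))) ≤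
      2 * β * PQ (1/2) (RE 0 n 0 n) (fun F => Can n F v' ∧ D ≤ DN n F v') := by
    intro v' _
    refine (PQ_union _ _ _).trans ?_
    refine le_trans ?_ (mul_le_mul_of_nonneg_left (sum_pick (RE 0 n 0 n) (vb n ×ˢ vb n)
      (fun F => Can n F v' ∧ D ≤ DN n F v') (fun F => (Pk M (cl n F v')).2))
      (by positivity : 0 ≤ 2 * β))
    rw [Finset.mul_sum]
    apply Finset.sum_le_sum
    intro p _
    apply H973S.pr_markov (p := fun _ : Edg => (1/2:ℝ)) okh (S := RE 0 n 0 n)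
      (fun F => KV n F v') (fun F _ => KV_sub n F v')
      (fun F F' hF hF' h => KV_agree hF hF' h)
      (fun F => (Can n F v' ∧ D ≤ DN n F v') ∧ (Pk M (cl n F v')).2 = p)
      (fun F F' hF hF' h hA => by
        have e := cl_agree hF hF' h
        unfold Can DN at hA ⊢
        rw [e]
        exact hA)
      (fun (_ G : Finset Edg) => Crs p.1.1 p.1.2 q R (↑G : Set Edg) ∨
          Crs p.2.1 p.2.2 q R (↑G : Set Edg))
    intro k _
    refine (Pr_or_le okh _ _ _).trans ?_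
    have h3 := hA q R hq hR p.1.1 p.1.2 (RE 0 n 0 n \ k)
    have h4 := hA q R hq hR p.2.1 p.2.2 (RE 0 n 0 n \ k)
    unfold PQ at h3 h4
    linarith
  refine (Finset.sum_le_sum h2).trans ?_
  rw [← Finset.mul_sum]
  exact mul_le_mul_of_nonneg_left (sum_Can hC hm1 hD1) (by positivity)

/-! ### The window -/

/-- The lower end of the window. -/
noncomputable def aW (s h : ℝ) (u : ℤ × ℤ) : ℤ := ⌊(s - h) * Real.sqrt ((nsq u : ℝ) - 1)⌋

/-- The width of the window. -/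
noncomputable def WW (n M : ℕ) (h : ℝ) : ℤ := ⌈(n:ℝ) / M + 6 * h * M⌉ + 1

theorem window {n M D' : ℕ} {s h : ℝ} (hM : 1 ≤ M) {u : ℤ × ℤ} (hu : u ∈ Net M) {x : ℤ}
    (hx : 0 ≤ x) (up : x ^ 2 ≤ D' * nsq u) (lo : (D':ℤ) * (nsq u - 1) ≤ x ^ 2)
    (hs : s ≤ 2 * n) (hh : |s - Real.sqrt D'| ≤ h) :
    aW s h u ≤ x ∧ x ≤ aW s h u + WW n M h := by
  obtain ⟨hN1, hN2⟩ := Net_nsq hu
  have hM' : (1:ℝ) ≤ M := by exact_mod_cast hM
  set N : ℝ := (nsq u : ℝ) with hN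
  have hN1' : 4 * (M:ℝ) ^ 2 + 1 ≤ N := by rw [hN]; exact_mod_cast hN1
  have hN2' : N ≤ 8 * (M:ℝ) ^ 2 := by rw [hN]; exact_mod_cast hN2
  set t := Real.sqrt (N - 1) with ht
  set r := Real.sqrt N with hr
  have ht0 : 0 ≤ t := Real.sqrt_nonneg _
  have hr0 : 0 ≤ r := Real.sqrt_nonneg _
  have ht2 : t * t = N - 1 := Real.mul_self_sqrt (by nlinarith)
  have hr2 : r * r = N := Real.mul_self_sqrt (by nlinarith)
  have htr : t ≤ r := Real.sqrt_le_sqrt (by linarith)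
  have hrM : 2 * M ≤ r := by
    apply Real.le_sqrt_of_sq_le
    nlinarith
  have hrM2 : r ≤ 3 * M := by
    rw [hr, Real.sqrt_le_left (by positivity)]
    nlinarith
  set s' := Real.sqrt D' with hs'
  have hs'0 : 0 ≤ s' := Real.sqrt_nonneg _
  have hs'2 : s' * s' = D' := Real.mul_self_sqrt (by positivity)
  have hxr : (0:ℝ) ≤ x := by exact_mod_cast hx
  have up' : (x:ℝ) ^ 2 ≤ D' * N := by rw [hN]; exact_mod_cast up
  have lo' : (D':ℝ) * (N - 1) ≤ (x:ℝ) ^ 2 := by rw [hN]; exact_mod_cast lo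
  have x1 : (x:ℝ) ≤ s' * r := by
    apply le_of_sq_le_sq _ (by positivity)
    have : (s' * r) ^ 2 = D' * N := by rw [← hs'2, ← hr2]; ring
    rw [this]
    exact up'
  have x2 : s' * t ≤ x := by
    apply le_of_sq_le_sq _ hxr
    have : (s' * t) ^ 2 = D' * (N - 1) := by rw [← hs'2, ← ht2]; ring
    rw [this]
    exact lo'
  rw [abs_le] at hh
  have hh0 : 0 ≤ h := by linarith
  have y1 : (s - h) * t ≤ x := by
    refine le_trans ?_ x2
    exact mul_le_mul_of_nonneg_right (by linarith) ht0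
  have y2 : (x:ℝ) ≤ (s + h) * r := by
    refine x1.trans ?_
    exact mul_le_mul_of_nonneg_right (by linarith) hr0
  have y3 : (s + h) * r ≤ (s - h) * t + ((n:ℝ) / M + 6 * h * M) := by
    have k1 : s * (r - t) ≤ n / M := by
      rw [le_div_iff₀ (by linarith)]
      have k2 : (r - t) * (r + t) = 1 := by nlinarith
      have k3 : (r - t) * (2 * M) ≤ 1 := by
        have : (r - t) * (2 * M) ≤ (r - t) * (r + t) :=
          mul_le_mul_of_nonneg_left (by linarith) (by linarith)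
        linarith
      have k4 : s * ((r - t) * (2 * M)) ≤ 2 * n * 1 :=
        mul_le_mul hs k3 (mul_nonneg (by linarith) (by linarith)) (by positivity)
      nlinarith
    have k5 : h * (r + t) ≤ 6 * h * M := by
      have : h * (r + t) ≤ h * (6 * M) := mul_le_mul_of_nonneg_left (by linarith) hh0
      linarith
    nlinarith
  constructor
  · have z1 : (aW s h u : ℝ) ≤ x := (Int.floor_le _).trans y1
    exact_mod_cast z1
  · have z2 : (s - h) * t < aW s h u + 1 := Int.lt_floor_add_one _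
    have z3 : (n:ℝ) / M + 6 * h * M ≤ ⌈(n:ℝ) / M + 6 * h * M⌉ := Int.le_ceil _
    have z4 : (x:ℝ) < ((aW s h u + WW n M h : ℤ) : ℝ) + 1 := by
      unfold WW
      push_cast
      linarith
    have z5 : x < aW s h u + WW n M h + 1 := by exact_mod_cast z4
    omega

end Pool.Agent.H950.NT
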