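import Pool.Agent.H950.NT.Pair
import Pool.Graph.R_seed8.H973R3.H3.Final

/-!
Clusters of the box, their diameters and canonical vertices.
-/

set_option autoImplicit false

namespace Pool.Agent.H950.NT

open H974 H12S Finset H342P

/-- The vertices of the box. -/
noncomputable def vb (n : ℕ) : Finset Vtx := Finset.Icc (0:ℤ) n ×ˢ Finset.Icc (0:ℤ) n

theorem mem_vb {n : ℕ} {v : Vtx} : v ∈ vb n ↔ inR 0 n 0 n v := by
  unfold vb inR
  rw [Finset.mem_product, Finset.mem_Icc, Finset.mem_Icc]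

theorem ends_vb {n : ℕ} {e : Edg} (he : e ∈ RE 0 n 0 n) : src e ∈ vb n ∧ tgt e ∈ vb n := by
  obtain ⟨x, y, t⟩ := e
  rw [mem_vb, mem_vb]
  unfold inR
  cases t
  · rw [mem_RE_false] at he
    simp only [src_mk, tgt_false]
    omega
  · rw [mem_RE_true] at he
    simp only [src_mk, tgt_true]
    omega

theorem reach_vb {n : ℕ} {F : Set Edg} (hF : F ⊆ ↑(RE 0 (n:ℤ) 0 n)) {v w : Vtx} (hv : v ∈ vb n)
    (h : Reach F v w) : w ∈ vb n := by
  induction h with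
  | refl => exact hv
  | @tail w w' _ hs _ =>
    obtain ⟨e, he, hc⟩ := hs
    have h1 := ends_vb (n := n) (e := e) (by exact_mod_cast hF he)
    rcases hc with ⟨_, h2⟩ | ⟨h2, _⟩
    · rw [← h2]; exact h1.2
    · rw [← h2]; exact h1.1

open Classical in
/-- The cluster of `v`. -/
noncomputable def cl (n : ℕ) (F : Finset Edg) (v : Vtx) : Finset Vtx :=
  (vb n).filter (fun w => Reach (↑F : Set Edg) v w)

theorem mem_cl {n : ℕ} {F : Finset Edg} {v w : Vtx} :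
    w ∈ cl n F v ↔ w ∈ vb n ∧ Reach (↑F : Set Edg) v w := by
  classical
  unfold cl
  rw [Finset.mem_filter]

theorem self_cl {n : ℕ} {F : Finset Edg} {v : Vtx} (hv : v ∈ vb n) : v ∈ cl n F v :=
  mem_cl.mpr ⟨hv, Reach.refl _ _⟩

/-- The square of the diameter of a finite set. -/
noncomputable def DX (X : Finset Vtx) : ℕ := (X ×ˢ X).sup (fun p => (dsq p.1 p.2).toNat)

theorem dsq_nonneg (a b : Vtx) : 0 ≤ dsq a b := by unfold dsq; positivity

theorem le_DX {X : Finset Vtx} {a b : Vtx} (ha : a ∈ X) (hb : b ∈ X) : dsq a b ≤ DX X := by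
  have h := Finset.le_sup (f := fun p : Vtx × Vtx => (dsq p.1 p.2).toNat)
    (Finset.mem_product.mpr ⟨ha, hb⟩ : (a, b) ∈ X ×ˢ X)
  simp only at h
  have h2 := dsq_nonneg a b
  unfold DX
  omega

theorem ex_DX {X : Finset Vtx} (hX : X.Nonempty) : ∃ a ∈ X, ∃ b ∈ X, dsq a b = DX X := by
  obtain ⟨p, hp, h⟩ := Finset.exists_mem_eq_sup (X ×ˢ X) (hX.product hX)
    (fun p => (dsq p.1 p.2).toNat)
  rw [Finset.mem_product] at hp
  refine ⟨p.1, hp.1, p.2, hp.2, ?_⟩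
  have h2 := dsq_nonneg p.1 p.2
  unfold DX
  omega

/-- The square of the diameter of the cluster of `v`. -/
noncomputable def DN (n : ℕ) (F : Finset Edg) (v : Vtx) : ℕ := DX (cl n F v)

/-- The canonical vertex of a cluster. -/
def Can (n : ℕ) (F : Finset Edg) (v : Vtx) : Prop :=
  v ∈ vb n ∧ ∀ w ∈ cl n F v, Lx (0, 1) v w

theorem cl_eq {n : ℕ} {F : Finset Edg} {v w : Vtx} (h : Reach (↑F : Set Edg) v w) :
    cl n F w = cl n F v := by
  ext x
  rw [mem_cl, mem_cl]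
  exact ⟨fun h1 => ⟨h1.1, h.trans h1.2⟩, fun h1 => ⟨h1.1, h.symm.trans h1.2⟩⟩

theorem ex_Can {n : ℕ} {F : Finset Edg} {v : Vtx} (hv : v ∈ vb n) :
    ∃ w, Can n F w ∧ Reach (↑F : Set Edg) v w := by
  obtain ⟨w, hw, h⟩ := exists_Lx (0, 1) (X := cl n F v) ⟨v, self_cl hv⟩
  rw [mem_cl] at hw
  refine ⟨w, ⟨hw.1, ?_⟩, hw.2⟩
  rw [cl_eq hw.2]
  exact h

theorem Can_unique {n : ℕ} {F : Finset Edg} {v w : Vtx} (hv : Can n F v) (hw : Can n F w)
    (h : Reach (↑F : Set Edg) v w) : v = w :=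
  Lx_antisymm (by norm_num) (hv.2 w (mem_cl.mpr ⟨hw.1, h⟩)) (hw.2 v (mem_cl.mpr ⟨hv.1, h.symm⟩))

/-- The explored edges. -/
noncomputable def KV (n : ℕ) (F : Finset Edg) (v : Vtx) : Finset Edg := by
  classical
  exact (RE 0 n 0 n).filter (fun e => Reach (↑F : Set Edg) v (src e) ∨
    Reach (↑F : Set Edg) v (tgt e))

theorem mem_KV {n : ℕ} {F : Finset Edg} {v : Vtx} {e : Edg} : e ∈ KV n F v ↔
    e ∈ RE 0 n 0 n ∧ (Reach (↑F : Set Edg) v (src e) ∨ Reach (↑F : Set Edg) v (tgt e)) := by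
  classical
  unfold KV
  rw [Finset.mem_filter]

theorem KV_sub (n : ℕ) (F : Finset Edg) (v : Vtx) : KV n F v ⊆ RE 0 n 0 n :=
  fun _ he => (mem_KV.mp he).1

theorem reach_agree {n : ℕ} {F F' : Finset Edg} {v : Vtx} (hF : F ⊆ RE 0 n 0 n)
    (hF' : F' ⊆ RE 0 n 0 n) (h : F ∩ KV n F v = F' ∩ KV n F v) (w : Vtx) :
    Reach (↑F : Set Edg) v w ↔ Reach (↑F' : Set Edg) v w := by
  apply H973S.agree (Ω := ↑(RE 0 (n:ℤ) 0 n)) (by exact_mod_cast hF) (by exact_mod_cast hF')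
  intro e he hc
  have hK : e ∈ KV n F v := mem_KV.mpr ⟨by exact_mod_cast he, hc⟩
  have h2 : e ∈ F ∩ KV n F v ↔ e ∈ F' ∩ KV n F v := by rw [h]
  rw [Finset.mem_inter, Finset.mem_inter] at h2
  simp only [hK, and_true] at h2
  exact_mod_cast h2

theorem cl_agree {n : ℕ} {F F' : Finset Edg} {v : Vtx} (hF : F ⊆ RE 0 n 0 n)
    (hF' : F' ⊆ RE 0 n 0 n) (h : F ∩ KV n F v = F' ∩ KV n F v) : cl n F' v = cl n F v := by
  ext w
  rw [mem_cl, mem_cl, reach_agree hF hF' h]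

theorem KV_agree {n : ℕ} {F F' : Finset Edg} {v : Vtx} (hF : F ⊆ RE 0 n 0 n)
    (hF' : F' ⊆ RE 0 n 0 n) (h : F ∩ KV n F v = F' ∩ KV n F v) : KV n F' v = KV n F v := by
  ext e
  rw [mem_KV, mem_KV, reach_agree hF hF' h, reach_agree hF hF' h]

/-- A path which starts outside the explored cluster does not use explored edges. -/
theorem reach_fresh {n : ℕ} {F : Finset Edg} {v x y : Vtx} (hF : F ⊆ RE 0 n 0 n)
    (hx : ¬ Reach (↑F : Set Edg) v x) (h : Reach (↑F : Set Edg) x y) :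
    Reach (↑(F \ KV n F v) : Set Edg) x y := by
  have key : ∀ y, Reach (↑F : Set Edg) x y → ¬ Reach (↑F : Set Edg) v y :=
    fun y h1 h2 => hx (h2.trans h1.symm)
  induction h with
  | refl => exact Reach.refl _ _
  | @tail w w' hw hs ih =>
    obtain ⟨e, he, hc⟩ := hs
    have h1 := key w hw
    have h2 := key w' (hw.trans (Adj.reach ⟨e, he, hc⟩))
    refine ih.trans (Adj.reach ⟨e, ?_, hc⟩)
    have he' : e ∈ F := by exact_mod_cast he
    have : e ∈ F \ KV n F v := by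
      rw [Finset.mem_sdiff, mem_KV]
      refine ⟨he', ?_⟩
      rintro ⟨-, h3⟩
      rcases hc with ⟨h4, h5⟩ | ⟨h4, h5⟩
      · rw [h4, h5] at h3
        exact h3.elim h1 h2
      · rw [h4, h5] at h3
        exact h3.elim h2 h1
    exact_mod_cast this

/-- If the cluster has large diameter then it has a vertex far from any given vertex. -/
theorem exists_far {X : Finset Vtx} (hX : X.Nonempty) {ρ : ℕ} (hρ : 8 * ρ ^ 2 ≤ DX X) (z : Vtx) :
    ∃ w ∈ X, Far z ρ w := by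
  by_contra hcon
  push Not at hcon
  obtain ⟨a, ha, b, hb, h⟩ := ex_DX hX
  have h1 := hcon a ha
  have h2 := hcon b hb
  unfold Far at h1 h2
  push Not at h1 h2
  obtain ⟨a1, a2, a3, a4⟩ := h1
  obtain ⟨b1, b2, b3, b4⟩ := h2
  have h3 : |a.1 - b.1| ≤ 2 * ρ - 1 := by rw [abs_le]; omega
  have h4 : |a.2 - b.2| ≤ 2 * ρ - 1 := by rw [abs_le]; omega
  have h5 : (a.1 - b.1) ^ 2 ≤ (2 * ρ - 1) ^ 2 := by
    rw [← sq_abs (a.1 - b.1)]
    exact pow_le_pow_left₀ (abs_nonneg _) h3 2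
  have h6 : (a.2 - b.2) ^ 2 ≤ (2 * ρ - 1) ^ 2 := by
    rw [← sq_abs (a.2 - b.2)]
    exact pow_le_pow_left₀ (abs_nonneg _) h4 2
  have h7 : 8 * (ρ:ℤ) ^ 2 ≤ DX X := by exact_mod_cast hρ
  have hρ0 : (0:ℤ) < ρ := by omega
  rw [← h] at h7
  unfold dsq at h7
  nlinarith

/-- The extremal vertex of a cluster, seen in a configuration which contains the cluster. -/
theorem XM_of {n : ℕ} {F : Finset Edg} {v z : Vtx} {u : ℤ × ℤ} {ρ : ℕ} (hF : F ⊆ RE 0 n 0 n)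
    (hz : z ∈ cl n F v) (hmax : ∀ x ∈ cl n F v, Lx u z x) (hρ : 8 * ρ ^ 2 ≤ DN n F v)
    {G : Set Edg} (hG : G ⊆ ↑F) (hr : ∀ x, Reach (↑F : Set Edg) z x → Reach G z x) :
    XM u ρ z G := by
  have hz' := mem_cl.mp hz
  constructor
  · intro w hw
    apply hmax
    rw [mem_cl]
    have h1 : Reach (↑F : Set Edg) z w := hw.mono (Set.inter_subset_left.trans hG)
    exact ⟨reach_vb (by exact_mod_cast hF) hz'.1 h1, hz'.2.trans h1⟩
  · obtain ⟨w, hw, hf⟩ := exists_far ⟨z, hz⟩ hρ z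
    have h1 : Reach (↑F : Set Edg) z w := hz'.2.symm.trans (mem_cl.mp hw).2
    have h2 := hr w h1
    unfold Far at hf
    obtain ⟨w', h3, h4, h5⟩ := first_exit (a := z.1 - ρ) (b := z.1 + ρ) (c := z.2 - ρ)
      (d := z.2 + ρ) (by unfold inR; omega) h2 (by omega)
    refine ⟨w', ?_, h5⟩
    unfold Far
    omega

/-- The number of large clusters. -/
theorem sum_Can {C : ℝ} (hC : ∀ (S : Finset Edg) (u : ℤ × ℤ), u.2 ≠ 0 → ∀ (m ρ : ℕ), 1 ≤ m →
    4 * m ≤ ρ → ∀ c : ℤ × ℤ, ∑ z ∈ bx c m, PQ (1/2) S (fun F => XM u ρ z ↑F) ≤ C)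
    {n m D : ℕ} (hm : 1 ≤ m) (hD : 128 * m ^ 2 ≤ D) :
    ∑ v ∈ vb n, PQ (1/2) (RE 0 n 0 n) (fun F => Can n F v ∧ D ≤ DN n F v) ≤
      C * (((n / (2 * m + 1) + 1 : ℕ) : ℝ)) ^ 2 := by
  refine le_trans ?_ (sum_tot hC (n := n) (u := (0, 1)) (by norm_num) hm le_rfl)
  apply Finset.sum_le_sum
  intro v _
  unfold Gz
  apply Pr_mono okh
  intro F hF h
  apply XM_of hF (self_cl h.1.1) h.1.2 _ (Set.Subset.refl _) (fun _ hx => hx)
  have := h.2
  nlinarith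

end Pool.Agent.H950.NT
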