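import Pool.Agent.H950.NT.Expl

/-!
The main estimates.
-/

set_option autoImplicit false

namespace Pool.Agent.H950.NT

open H974 H12S Finset H342P

/-- Two different large clusters have almost the same diameter. -/
def EvT (n D : ℕ) (h : ℝ) (F : Finset Edg) : Prop :=
  ∃ v v', Can n F v ∧ Can n F v' ∧ v ≠ v' ∧ D ≤ DN n F v ∧ D ≤ DN n F v' ∧
    |Real.sqrt (DN n F v) - Real.sqrt (DN n F v')| ≤ h

/-- A large cluster has its diameter in a window. -/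
def EvW (n D : ℕ) (x h : ℝ) (F : Finset Edg) : Prop :=
  ∃ v, v ∈ vb n ∧ D ≤ DN n F v ∧ |x - Real.sqrt (DN n F v)| ≤ h

theorem DN_le (n : ℕ) (F : Finset Edg) (v : Vtx) : DN n F v ≤ 4 * n ^ 2 := by
  unfold DN DX
  apply Finset.sup_le
  intro p hp
  rw [Finset.mem_product] at hp
  have h1 := mem_vb.mp (mem_cl.mp hp.1).1
  have h2 := mem_vb.mp (mem_cl.mp hp.2).1
  unfold inR at h1 h2
  have h3 : |p.1.1 - p.2.1| ≤ n := by rw [abs_le]; omega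
  have h4 : |p.1.2 - p.2.2| ≤ n := by rw [abs_le]; omega
  have h5 : (p.1.1 - p.2.1) ^ 2 ≤ (n:ℤ) ^ 2 := by
    rw [← sq_abs (p.1.1 - p.2.1)]
    exact pow_le_pow_left₀ (abs_nonneg _) h3 2
  have h6 : (p.1.2 - p.2.2) ^ 2 ≤ (n:ℤ) ^ 2 := by
    rw [← sq_abs (p.1.2 - p.2.2)]
    exact pow_le_pow_left₀ (abs_nonneg _) h4 2
  have h7 : dsq p.1 p.2 ≤ 4 * (n:ℤ) ^ 2 := by
    unfold dsq
    nlinarith [sq_nonneg (n:ℤ)]
  have h8 : (((4 * n ^ 2 : ℕ)) : ℤ) = 4 * (n:ℤ) ^ 2 := by push_cast; ring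
  omega

theorem sqrt_DN_le (n : ℕ) (F : Finset Edg) (v : Vtx) : Real.sqrt (DN n F v) ≤ 2 * n := by
  rw [Real.sqrt_le_left (by positivity)]
  have h := DN_le n F v
  have h2 : (DN n F v : ℝ) ≤ 4 * (n:ℝ) ^ 2 := by exact_mod_cast h
  nlinarith

theorem blk_disj {z w : Vtx} {q : ℕ} (h : 8 * (q:ℤ) ^ 2 < dsq z w) :
    Disjoint (blk z q) (blk w q) := by
  rw [Finset.disjoint_left]
  intro e he he'
  apply absurd h
  push Not
  have key : ∀ z : Vtx, e ∈ blk z q → |e.1 - z.1| ≤ q ∧ |e.2.1 - z.2| ≤ q := by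
    intro z hz
    unfold blk at hz
    obtain ⟨x, y, t⟩ := e
    rw [abs_le, abs_le]
    cases t
    · rw [mem_RE_false] at hz; simp only; omega
    · rw [mem_RE_true] at hz; simp only; omega
  obtain ⟨h1, h2⟩ := key z he
  obtain ⟨h3, h4⟩ := key w he'
  rw [abs_le] at h1 h2 h3 h4
  have h5 : |z.1 - w.1| ≤ 2 * q := by rw [abs_le]; omega
  have h6 : |z.2 - w.2| ≤ 2 * q := by rw [abs_le]; omega
  have h7 : (z.1 - w.1) ^ 2 ≤ (2 * (q:ℤ)) ^ 2 := by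
    rw [← sq_abs (z.1 - w.1)]
    exact pow_le_pow_left₀ (abs_nonneg _) h5 2
  have h8 : (z.2 - w.2) ^ 2 ≤ (2 * (q:ℤ)) ^ 2 := by
    rw [← sq_abs (z.2 - w.2)]
    exact pow_le_pow_left₀ (abs_nonneg _) h6 2
  unfold dsq
  nlinarith

/-- The bound on the probability for the pair of extremal vertices. -/
noncomputable def BM (C : ℝ) (n M m : ℕ) (h : ℝ) : ℝ :=
  C ^ 2 * (((n / (2 * m + 1) + 1 : ℕ) : ℝ)) ^ 3 / (2 * m + 1) *
        (2 * (WW n M h) + 8 * M + 4 * (WW n M h) * Real.sqrt M)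

theorem WW_nonneg (n M : ℕ) {h : ℝ} (hh : 0 ≤ h) : 0 ≤ WW n M h := by
  unfold WW
  have : 0 ≤ ⌈(n:ℝ) / M + 6 * h * M⌉ := Int.ceil_nonneg (by positivity)
  omega

/-- The event that there are extremal vertices with the given distance, outside `k`. -/
def EvP (n M m : ℕ) (s h : ℝ) (k G : Finset Edg) : Prop :=
  ∃ u ∈ Net M, ∃ z w : ℤ × ℤ, PC n (4 * m) k (aW s h u) (WW n M h) u z w ∧
    XM u (4 * m) z (↑G : Set Edg) ∧ XM (ng u) (4 * m) w (↑G : Set Edg)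

theorem pr_EvP {C : ℝ} (hC0 : 0 ≤ C) (hC : ∀ (S : Finset Edg) (u : ℤ × ℤ), u.2 ≠ 0 →
    ∀ (m ρ : ℕ), 1 ≤ m → 4 * m ≤ ρ → ∀ c : ℤ × ℤ,
    ∑ z ∈ bx c m, PQ (1/2) S (fun F => XM u ρ z ↑F) ≤ C)
    {n M m : ℕ} (hM : 1 ≤ M) (hm : 1 ≤ m) (hn : 10 * m ≤ n) {s h : ℝ} (hh : 0 ≤ h)
    (k : Finset Edg) :
    PQ (1/2) (RE 0 n 0 n \ k) (EvP n M m s h k) ≤ BM C n M m h :=
  (pair_bound hC0 hC hM hm hn k (aW s h) (WW_nonneg n M hh)).trans
    (sum_SB hM (WW_nonneg n M hh))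

/-- The deterministic part. -/
theorem EvP_of {n M m D : ℕ} {s h : ℝ} (hM : 1 ≤ M) (hm : 1 ≤ m) (hD : 256 * m ^ 2 < D)
    {F k : Finset Edg} (hF : F ⊆ RE 0 n 0 n) {v' : Vtx} (hv' : v' ∈ vb n)
    (hDv' : D ≤ DN n F v') (hs0 : s ≤ 2 * n) (hh : |s - Real.sqrt (DN n F v')| ≤ h)
    (hcor : ∀ z ∈ cl n F v', NCor n (4 * m) z)
    (hk : ∀ z, z = (Pk M (cl n F v')).2.1 ∨ z = (Pk M (cl n F v')).2.2 →
      Disjoint (RE 0 n 0 n ∩ blk z (4 * m)) k)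
    (hr : ∀ z ∈ cl n F v', ∀ x, Reach (↑F : Set Edg) z x → Reach (↑(F \ k) : Set Edg) z x) :
    EvP n M m s h k (F \ k) := by
  have hD0 : 0 < DX (cl n F v') := lt_of_lt_of_le (by nlinarith) hDv'
  have hg := Pk_good hM (X := cl n F v') ⟨v', self_cl hv'⟩ hD0
  set u := (Pk M (cl n F v')).1
  set z := (Pk M (cl n F v')).2.1
  set w := (Pk M (cl n F v')).2.2
  have hfar := hg.far hM (by exact_mod_cast hD0.le)
  have hwin := window (n := n) hM hg.hu hg.pos hg.up hg.lo hs0 hh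
  have hdis : 8 * ((4 * m : ℕ) : ℤ) ^ 2 < dsq z w := by
    have h1 : (256 * m ^ 2 : ℕ) < DX (cl n F v') := lt_of_lt_of_le hD hDv'
    have h2 : 256 * (m:ℤ) ^ 2 < DX (cl n F v') := by exact_mod_cast h1
    push_cast
    nlinarith
  have hρ : 8 * (4 * m) ^ 2 ≤ DN n F v' := by nlinarith
  have hsub : (↑(F \ k) : Set Edg) ⊆ ↑F := by
    exact_mod_cast Finset.sdiff_subset
  refine ⟨u, hg.hu, z, w, ⟨(mem_cl.mp hg.hz).1, (mem_cl.mp hg.hw).1, hcor z hg.hz,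
    blk_disj hdis, hk z (Or.inl rfl), hk w (Or.inr rfl), ?_, ?_⟩, ?_, ?_⟩
  · linarith [hwin.1]
  · linarith [hwin.2]
  · exact XM_of hF hg.hz hg.mz hρ hsub (hr z hg.hz)
  · exact XM_of hF hg.hw hg.mw hρ hsub (hr w hg.hw)

/-- One cluster. -/
theorem pr_EvW {C' C c : ℝ} (hC0 : 0 ≤ C') (hC : ∀ (S : Finset Edg) (u : ℤ × ℤ), u.2 ≠ 0 →
    ∀ (m ρ : ℕ), 1 ≤ m → 4 * m ≤ ρ → ∀ c : ℤ × ℤ,
    ∑ z ∈ bx c m, PQ (1/2) S (fun F => XM u ρ z ↑F) ≤ C')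
    (hA : ∀ (ρ R : ℕ), 1 ≤ ρ → ρ ≤ R → ∀ (c1 c2 : ℤ)
    (S : Finset Edg), PQ (1/2) S (fun F => Crs c1 c2 ρ R ↑F) ≤ C * ((ρ:ℝ) / R) ^ c)
    {n R D M m : ℕ} (hM : 1 ≤ M) (hm : 1 ≤ m) (hn : 10 * m ≤ n) (hR : 4 * m ≤ R)
    (hD : 8 * R ^ 2 ≤ D) (hD2 : 256 * m ^ 2 < D) {x h : ℝ} (hx : x ≤ 2 * n) (hh : 0 ≤ h) :
    PQ (1/2) (RE 0 n 0 n) (EvW n D x h) ≤ 4 * (C * (((4 * m : ℕ):ℝ) / R) ^ c) + BM C' n M m h := by
  have h1 : PQ (1/2) (RE 0 n 0 n) (EvW n D x h) ≤ PQ (1/2) (RE 0 n 0 n) (fun F =>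
      EvC n (4 * m) D F ∨ EvP n M m x h ∅ F) := by
    apply Pr_mono okh
    rintro F hF ⟨v, hv, hDv, hxv⟩
    by_cases hc : EvC n (4 * m) D F
    · exact Or.inl hc
    · right
      have h2 := EvP_of (k := ∅) hM hm hD2 hF hv hDv hx hxv (fun z hz => by
        by_contra hcon
        exact hc ⟨v, z, hv, hz, hcon, hDv⟩) (fun z _ => Finset.disjoint_empty_right _)
        (fun z _ x h => by rw [Finset.sdiff_empty]; exact h)
      rwa [Finset.sdiff_empty] at h2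
  refine h1.trans ((Pr_or_le okh _ _ _).trans ?_)
  have h2 := pr_EvC hA (n := n) (q := 4 * m) (by omega) hR hD
  have h3 := pr_EvP hC0 hC hM hm hn (s := x) hh ∅
  rw [Finset.sdiff_empty] at h3
  exact add_le_add h2 h3

/-- Two clusters. -/
theorem pr_EvT {C' C c : ℝ} (hC0 : 0 ≤ C') (hC : ∀ (S : Finset Edg) (u : ℤ × ℤ), u.2 ≠ 0 →
    ∀ (m ρ : ℕ), 1 ≤ m → 4 * m ≤ ρ → ∀ c : ℤ × ℤ,
    ∑ z ∈ bx c m, PQ (1/2) S (fun F => XM u ρ z ↑F) ≤ C')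
    (hA : ∀ (ρ R : ℕ), 1 ≤ ρ → ρ ≤ R → ∀ (c1 c2 : ℤ)
    (S : Finset Edg), PQ (1/2) S (fun F => Crs c1 c2 ρ R ↑F) ≤ C * ((ρ:ℝ) / R) ^ c)
    {n R D M m m1 : ℕ} (hM : 1 ≤ M) (hm : 1 ≤ m) (hn : 10 * m ≤ n) (hR : 4 * m ≤ R)
    (hD : 8 * R ^ 2 ≤ D) (hD2 : 256 * m ^ 2 < D) (hm1 : 1 ≤ m1) (hD1 : 128 * m1 ^ 2 ≤ D)
    {h : ℝ} (hh : 0 ≤ h) :
    PQ (1/2) (RE 0 n 0 n) (EvT n D h) ≤ 4 * (C * (((4 * m : ℕ):ℝ) / R) ^ c) +
      (2 * (C * (((4 * m : ℕ):ℝ) / R) ^ c) + BM C' n M m h) *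
        (C' * (((n / (2 * m1 + 1) + 1 : ℕ) : ℝ)) ^ 2) := by
  classical
  have hD0 : 0 < D := by nlinarith
  set T : Finset ℕ := Finset.range (4 * n ^ 2 + 1) with hT
  have h1 : PQ (1/2) (RE 0 n 0 n) (EvT n D h) ≤ PQ (1/2) (RE 0 n 0 n) (fun F =>
      EvC n (4 * m) D F ∨ (EvB n (4 * m) D M F ∨ (∃ v ∈ vb n, ∃ δ ∈ T,
        ((Can n F v ∧ D ≤ DN n F v) ∧ DN n F v = δ) ∧
        EvP n M m (min (Real.sqrt δ) (2 * n)) h (KV n F v) (F \ KV n F v)))) := by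
    apply Pr_mono okh
    rintro F hF ⟨v, v', hv, hv', hne, hDv, hDv', hclose⟩
    by_cases hc : EvC n (4 * m) D F
    · exact Or.inl hc
    by_cases hb : EvB n (4 * m) D M F
    · exact Or.inr (Or.inl hb)
    refine Or.inr (Or.inr ⟨v, hv.1, DN n F v, ?_, ⟨⟨hv, hDv⟩, rfl⟩, ?_⟩)
    · rw [hT, Finset.mem_range]
      have := DN_le n F v
      omega
    · have hmin : min (Real.sqrt (DN n F v)) (2 * n) = Real.sqrt (DN n F v) :=
        min_eq_left (sqrt_DN_le n F v)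
      rw [hmin]
      have hnr : ∀ z ∈ cl n F v', ¬ Reach (↑F : Set Edg) v z := fun z hz h =>
        hne (Can_unique hv hv' (h.trans (mem_cl.mp hz).2.symm))
      refine EvP_of hM hm hD2 hF hv'.1 hDv' (sqrt_DN_le n F v) hclose
        (fun z hz => by
          by_contra hcon
          exact hc ⟨v', z, hv'.1, hz, hcon, hDv'⟩) ?_
        (fun z hz x h => reach_fresh hF (hnr z hz) h)
      intro z hz
      rw [Finset.disjoint_left]
      intro e he hek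
      rw [Finset.mem_inter] at he
      rw [mem_KV] at hek
      apply hb
      have hends := ends_vb hek.1
      have hin : ∀ y, (y = src e ∨ y = tgt e) → y ∈ bx z (4 * m) := by
        intro y hy
        rw [mem_bx]
        have he2 := he.2
        unfold blk at he2
        unfold inR
        obtain ⟨x0, y0, t⟩ := e
        cases t
        · rw [mem_RE_false] at he2
          rcases hy with rfl | rfl
          · simp only [src_mk]; omega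
          · simp only [tgt_false]; omega
        · rw [mem_RE_true] at he2
          rcases hy with rfl | rfl
          · simp only [src_mk]; omega
          · simp only [tgt_true]; omega
      have hy : ∃ y ∈ cl n F v, y ∈ bx z (4 * m) := by
        rcases hek.2 with h | h
        · exact ⟨src e, mem_cl.mpr ⟨hends.1, h⟩, hin _ (Or.inl rfl)⟩
        · exact ⟨tgt e, mem_cl.mpr ⟨hends.2, h⟩, hin _ (Or.inr rfl)⟩
      obtain ⟨y, hy1, hy2⟩ := hy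
      refine ⟨v, v', hv, hv', hne, hDv, hDv', y, hy1, ?_⟩
      rcases hz with rfl | rfl
      · exact Or.inl hy2
      · exact Or.inr hy2
  refine h1.trans ((Pr_or_le okh _ _ _).trans ?_)
  have h2 := pr_EvC hA (n := n) (q := 4 * m) (by omega) hR hD
  have h3 := pr_EvB hC hA (n := n) (q := 4 * m) (M := M) hM (by omega) hR hD hm1 hD1
  have h4 : PQ (1/2) (RE 0 n 0 n) (fun F => ∃ v ∈ vb n, ∃ δ ∈ T,
        ((Can n F v ∧ D ≤ DN n F v) ∧ DN n F v = δ) ∧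
        EvP n M m (min (Real.sqrt δ) (2 * n)) h (KV n F v) (F \ KV n F v)) ≤
      BM C' n M m h * (C' * (((n / (2 * m1 + 1) + 1 : ℕ) : ℝ)) ^ 2) := by
    have hβ0 : 0 ≤ BM C' n M m h :=
      (Pr_nonneg okh _ _).trans (pr_EvP hC0 hC hM hm hn (s := 0) hh ∅)
    refine (PQ_union _ _ _).trans ?_
    refine le_trans ?_ (mul_le_mul_of_nonneg_left (sum_Can hC (n := n) hm1 hD1) hβ0)
    rw [Finset.mul_sum]
    apply Finset.sum_le_sum
    intro v _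
    refine (PQ_union _ _ _).trans ?_
    refine le_trans ?_ (mul_le_mul_of_nonneg_left (sum_pick (RE 0 n 0 n) T
      (fun F => Can n F v ∧ D ≤ DN n F v) (fun F => DN n F v)) hβ0)
    rw [Finset.mul_sum]
    apply Finset.sum_le_sum
    intro δ _
    apply H973S.pr_markov (p := fun _ : Edg => (1/2:ℝ)) okh (S := RE 0 n 0 n)
      (fun F => KV n F v) (fun F _ => KV_sub n F v)
      (fun F F' hF hF' h => KV_agree hF hF' h)
      (fun F => (Can n F v ∧ D ≤ DN n F v) ∧ DN n F v = δ)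
      (fun F F' hF hF' h hA => by
        have e := cl_agree hF hF' h
        unfold Can DN at hA ⊢
        rw [e]
        exact hA)
      (fun k G => EvP n M m (min (Real.sqrt δ) (2 * n)) h k G)
    intro k _
    exact pr_EvP hC0 hC hM hm hn hh k
  have h5 := Pr_or_le okh (RE 0 (n:ℤ) 0 n) (EvB n (4 * m) D M) (fun F => ∃ v ∈ vb n, ∃ δ ∈ T,
        ((Can n F v ∧ D ≤ DN n F v) ∧ DN n F v = δ) ∧
        EvP n M m (min (Real.sqrt δ) (2 * n)) h (KV n F v) (F \ KV n F v))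
  unfold PQ at h2 h3 h4
  rw [add_mul]
  linarith

end Pool.Agent.H950.NT
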