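import Pool.Agent.H950.NT.Strip

/-!
A finite set of directions, and the extremal vertices of a finite set in the direction which is
closest to the one of its diameter.
-/

set_option autoImplicit false

namespace Pool.Agent.H950.NT

open H974 H12S Finset H342P

/-- Square of the length. -/
def nsq (u : ℤ × ℤ) : ℤ := u.1 ^ 2 + u.2 ^ 2

/-- The directions. -/
noncomputable def Net (M : ℕ) : Finset (ℤ × ℤ) :=
  (Finset.Ico (-(M:ℤ)) M).image (fun j => (2 * (M:ℤ), 2 * j + 1)) ∪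
    (Finset.Ico (-(M:ℤ)) M).image (fun j => (2 * j + 1, 2 * (M:ℤ)))

theorem mem_Net {M : ℕ} {u : ℤ × ℤ} : u ∈ Net M ↔
    (∃ j : ℤ, (-(M:ℤ) ≤ j ∧ j < M) ∧ u = (2 * (M:ℤ), 2 * j + 1)) ∨
    (∃ j : ℤ, (-(M:ℤ) ≤ j ∧ j < M) ∧ u = (2 * j + 1, 2 * (M:ℤ))) := by
  unfold Net
  rw [Finset.mem_union, Finset.mem_image, Finset.mem_image]
  simp only [Finset.mem_Ico]
  constructor
  · rintro (⟨j, h1, h2⟩ | ⟨j, h1, h2⟩)
    · exact Or.inl ⟨j, h1, h2.symm⟩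
    · exact Or.inr ⟨j, h1, h2.symm⟩
  · rintro (⟨j, h1, h2⟩ | ⟨j, h1, h2⟩)
    · exact Or.inl ⟨j, h1, h2.symm⟩
    · exact Or.inr ⟨j, h1, h2.symm⟩

theorem Net_ne {M : ℕ} (hM : 1 ≤ M) {u : ℤ × ℤ} (h : u ∈ Net M) : u.1 ≠ 0 ∧ u.2 ≠ 0 := by
  rw [mem_Net] at h
  rcases h with ⟨j, _, rfl⟩ | ⟨j, _, rfl⟩
  · constructor <;> simp only <;> omega
  · constructor <;> simp only <;> omega

theorem Net_nsq {M : ℕ} {u : ℤ × ℤ} (h : u ∈ Net M) :
    4 * (M:ℤ) ^ 2 + 1 ≤ nsq u ∧ nsq u ≤ 8 * (M:ℤ) ^ 2 := by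
  rw [mem_Net] at h
  have key : ∀ j : ℤ, -(M:ℤ) ≤ j → j < M → 1 ≤ (2 * j + 1) ^ 2 ∧ (2 * j + 1) ^ 2 ≤ 4 * (M:ℤ) ^ 2 := by
    intro j h1 h2
    constructor
    · have : 0 < (2 * j + 1) ^ 2 :=
        lt_of_le_of_ne (sq_nonneg _) (Ne.symm (pow_ne_zero 2 (by omega)))
      omega
    · have h3 : |2 * j + 1| ≤ 2 * (M:ℤ) := by rw [abs_le]; omega
      have h4 := pow_le_pow_left₀ (abs_nonneg _) h3 2
      rw [sq_abs] at h4
      linarith
  rcases h with ⟨j, hj, rfl⟩ | ⟨j, hj, rfl⟩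
  · obtain ⟨k1, k2⟩ := key j hj.1 hj.2
    unfold nsq
    simp only
    constructor <;> nlinarith
  · obtain ⟨k1, k2⟩ := key j hj.1 hj.2
    unfold nsq
    simp only
    constructor <;> nlinarith

/-- A direction close to the one of a vector in the first quadrant of directions. -/
theorem dir1 {M : ℕ} (hM : 1 ≤ M) {x y : ℤ} (hx : 0 < x) (hy : |y| ≤ x) :
    ∃ j : ℤ, (-(M:ℤ) ≤ j ∧ j < M) ∧ |x * (2 * j + 1) - y * (2 * (M:ℤ))| ≤ x ∧
      0 ≤ 2 * (M:ℤ) * x + (2 * j + 1) * y := by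
  have hM' : (1:ℤ) ≤ M := by exact_mod_cast hM
  rw [abs_le] at hy
  obtain ⟨j, hj1, hj2, hj3⟩ : ∃ j : ℤ, (-(M:ℤ) ≤ j ∧ j < M) ∧ j * x ≤ M * y ∧
      M * y ≤ (j + 1) * x := by
    have h1 := Int.ediv_mul_le ((M:ℤ) * y) hx.ne'
    have h2 := Int.lt_ediv_add_one_mul_self ((M:ℤ) * y) hx
    have h3 : -(M:ℤ) ≤ ((M:ℤ) * y) / x := by
      rw [Int.le_ediv_iff_mul_le hx]
      nlinarith
    by_cases h4 : ((M:ℤ) * y) / x < M
    · exact ⟨_, ⟨h3, h4⟩, h1, h2.le⟩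
    · push Not at h4
      refine ⟨M - 1, ⟨by omega, by omega⟩, ?_, ?_⟩
      · have h5 : (M:ℤ) * x ≤ M * y := by
          have := mul_le_mul_of_nonneg_right h4 hx.le
          linarith
        nlinarith
      · have : (M:ℤ) * y ≤ M * x := mul_le_mul_of_nonneg_left hy.2 (by omega)
        linarith
  refine ⟨j, hj1, ?_, ?_⟩
  · rw [abs_le]
    constructor <;> nlinarith
  · have h1 : |2 * j + 1| ≤ 2 * (M:ℤ) := by rw [abs_le]; omega
    have h2 : |(2 * j + 1) * y| ≤ 2 * (M:ℤ) * x := by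
      rw [abs_mul]
      exact mul_le_mul h1 (abs_le.mpr hy) (abs_nonneg _) (by positivity)
    rw [abs_le] at h2
    linarith

theorem dir2 {M : ℕ} (hM : 1 ≤ M) (a b : ℤ × ℤ) (hD : 0 < dsq a b) :
    ∃ a' b' : ℤ × ℤ, ((a' = a ∧ b' = b) ∨ (a' = b ∧ b' = a)) ∧ ∃ u ∈ Net M,
      0 ≤ ip u a' - ip u b' ∧ dsq a b * (nsq u - 1) ≤ (ip u a' - ip u b') ^ 2 := by
  have key1 : ∀ a' b' : ℤ × ℤ, 0 < a'.1 - b'.1 → |a'.2 - b'.2| ≤ a'.1 - b'.1 → ∃ u ∈ Net M,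
      0 ≤ ip u a' - ip u b' ∧ dsq a' b' * (nsq u - 1) ≤ (ip u a' - ip u b') ^ 2 := by
    intro a' b' hx hy
    obtain ⟨j, hj, h1, h2⟩ := dir1 hM hx hy
    refine ⟨(2 * (M:ℤ), 2 * j + 1), mem_Net.mpr (Or.inl ⟨j, hj, rfl⟩), ?_, ?_⟩
    · unfold ip; simp only; linarith
    · have h3 := pow_le_pow_left₀ (abs_nonneg _) h1 2
      rw [sq_abs] at h3
      unfold ip dsq nsq
      simp only
      nlinarith [sq_nonneg (a'.2 - b'.2)]
  have key2 : ∀ a' b' : ℤ × ℤ, 0 < a'.2 - b'.2 → |a'.1 - b'.1| ≤ a'.2 - b'.2 → ∃ u ∈ Net M,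
      0 ≤ ip u a' - ip u b' ∧ dsq a' b' * (nsq u - 1) ≤ (ip u a' - ip u b') ^ 2 := by
    intro a' b' hx hy
    obtain ⟨j, hj, h1, h2⟩ := dir1 hM hx hy
    refine ⟨(2 * j + 1, 2 * (M:ℤ)), mem_Net.mpr (Or.inr ⟨j, hj, rfl⟩), ?_, ?_⟩
    · unfold ip; simp only; linarith
    · have h3 := pow_le_pow_left₀ (abs_nonneg _) h1 2
      rw [sq_abs] at h3
      unfold ip dsq nsq
      simp only
      nlinarith [sq_nonneg (a'.1 - b'.1)]
  have hsym : dsq b a = dsq a b := by unfold dsq; ring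
  have hne : a.1 - b.1 ≠ 0 ∨ a.2 - b.2 ≠ 0 := by
    by_contra h
    push Not at h
    unfold dsq at hD
    rw [h.1, h.2] at hD
    simp at hD
  rcases le_total |a.2 - b.2| |a.1 - b.1| with h | h
  · have h0 : a.1 - b.1 ≠ 0 := by
      intro h1
      rw [h1, abs_zero] at h
      have h2 := abs_nonpos_iff.mp h
      rcases hne with h3 | h3
      · exact h3 h1
      · exact h3 h2
    rcases lt_or_gt_of_ne h0 with h1 | h1
    · rw [abs_of_neg h1] at h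
      refine ⟨b, a, Or.inr ⟨rfl, rfl⟩, ?_⟩
      rw [← hsym]
      apply key1 b a (by omega)
      rw [abs_sub_comm]
      linarith
    · rw [abs_of_pos h1] at h
      exact ⟨a, b, Or.inl ⟨rfl, rfl⟩, key1 a b h1 h⟩
  · have h0 : a.2 - b.2 ≠ 0 := by
      intro h1
      rw [h1, abs_zero] at h
      have h2 := abs_nonpos_iff.mp h
      rcases hne with h3 | h3
      · exact h3 h2
      · exact h3 h1
    rcases lt_or_gt_of_ne h0 with h1 | h1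
    · rw [abs_of_neg h1] at h
      refine ⟨b, a, Or.inr ⟨rfl, rfl⟩, ?_⟩
      rw [← hsym]
      apply key2 b a (by omega)
      rw [abs_sub_comm]
      linarith
    · rw [abs_of_pos h1] at h
      exact ⟨a, b, Or.inl ⟨rfl, rfl⟩, key2 a b h1 h⟩

/-- The opposite direction. -/
def ng (u : ℤ × ℤ) : ℤ × ℤ := (-u.1, -u.2)

theorem ip_ng (u z : ℤ × ℤ) : ip (ng u) z = - ip u z := by
  unfold ip ng
  simp only
  ring

/-- The direction `u` and the vertices `z`, `w` for the finite set `X` with squared diameter `D`. -/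
structure Good (M : ℕ) (X : Finset (ℤ × ℤ)) (D : ℤ) (u z w : ℤ × ℤ) : Prop where
  hu : u ∈ Net M
  hz : z ∈ X
  hw : w ∈ X
  mz : ∀ x ∈ X, Lx u z x
  mw : ∀ x ∈ X, Lx (ng u) w x
  pos : 0 ≤ ip u z - ip u w
  up : (ip u z - ip u w) ^ 2 ≤ D * nsq u
  lo : D * (nsq u - 1) ≤ (ip u z - ip u w) ^ 2

theorem cs (u z w : ℤ × ℤ) : (ip u z - ip u w) ^ 2 ≤ dsq z w * nsq u := by
  unfold ip dsq nsq
  nlinarith [sq_nonneg (u.1 * (z.2 - w.2) - u.2 * (z.1 - w.1))]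

theorem exists_good {M : ℕ} (hM : 1 ≤ M) {X : Finset (ℤ × ℤ)} {a b : ℤ × ℤ} (ha : a ∈ X)
    (hb : b ∈ X) (hmax : ∀ c ∈ X, ∀ d ∈ X, dsq c d ≤ dsq a b) (hD : 0 < dsq a b) :
    ∃ u z w, Good M X (dsq a b) u z w := by
  obtain ⟨a', b', hab, u, hu, h1, h2⟩ := dir2 hM a b hD
  have ha' : a' ∈ X := by rcases hab with ⟨rfl, -⟩ | ⟨rfl, -⟩ <;> assumption
  have hb' : b' ∈ X := by rcases hab with ⟨-, rfl⟩ | ⟨-, rfl⟩ <;> assumption
  obtain ⟨z, hz, mz⟩ := exists_Lx u (X := X) ⟨a, ha⟩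
  obtain ⟨w, hw, mw⟩ := exists_Lx (ng u) (X := X) ⟨a, ha⟩
  have e1 := Lx_le (mz a' ha')
  have e2 := Lx_le (mw b' hb')
  rw [ip_ng, ip_ng] at e2
  have e3 : ip u a' - ip u b' ≤ ip u z - ip u w := by linarith
  refine ⟨u, z, w, hu, hz, hw, mz, mw, h1.trans e3, ?_, h2.trans ?_⟩
  · refine (cs u z w).trans (mul_le_mul_of_nonneg_right (hmax z hz w hw) ?_)
    unfold nsq; positivity
  · exact pow_le_pow_left₀ h1 e3 2

/-- The two vertices are far from each other. -/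
theorem Good.far {M : ℕ} (hM : 1 ≤ M) {X : Finset (ℤ × ℤ)} {D : ℤ} {u z w : ℤ × ℤ}
    (h : Good M X D u z w) (hD : 0 ≤ D) : D ≤ 2 * dsq z w := by
  have h1 := h.lo.trans (cs u z w)
  have h2 := (Net_nsq h.hu).1
  have hM' : (1:ℤ) ≤ M := by exact_mod_cast hM
  have h3 : (5:ℤ) ≤ nsq u := by nlinarith
  by_contra hcon
  push Not at hcon
  nlinarith

end Pool.Agent.H950.NT
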