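import Pool.Agent.H950.NT.Main

/-!
The choice of the parameters.
-/

set_option autoImplicit false

namespace Pool.Agent.H950.NT

open H974 H12S Finset H342P

theorem BM_le {C' a : ℝ} {n : ℕ} (ha : 0 < a) (ha2 : a ≤ 1/2) (hn : 1 ≤ (n:ℝ) * a^32) :
    BM C' n ⌈(a^16)⁻¹⌉₊ ⌊a * n / 16⌋₊ (a^32 * n) ≤ 10^8 * C'^2 * a^4 := by
  set m := ⌊a * n / 16⌋₊ with hm
  set M := ⌈(a^16)⁻¹⌉₊ with hM
  have ha1 : a ≤ 1 := by linarith
  have hn0 : (0:ℝ) < n := by
    by_contra h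
    push Not at h
    have h2 : (0:ℝ) ≤ n := Nat.cast_nonneg n
    have : (n:ℝ) = 0 := le_antisymm h h2
    rw [this] at hn
    norm_num at hn
  have ha31 : a ^ 31 ≤ 1 / 16 := by
    calc a ^ 31 ≤ (1/2) ^ 31 := pow_le_pow_left₀ ha.le ha2 31
      _ ≤ 1 / 16 := by norm_num
  have han : 16 ≤ a * n := by
    have e : (n:ℝ) * a ^ 32 = (a * n) * a ^ 31 := by ring
    rw [e] at hn
    have hpos : 0 < a * n := by positivity
    nlinarith
  have hm1 : (m:ℝ) ≤ a * n / 16 := Nat.floor_le (by positivity)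
  have hm2 : a * n / 16 < (m:ℝ) + 1 := Nat.lt_floor_add_one _
  have hm3 : a * n / 16 ≤ 2 * (m:ℝ) + 1 := by linarith
  have hm0 : (0:ℝ) < 2 * (m:ℝ) + 1 := by positivity
  have hT : ((n / (2 * m + 1) + 1 : ℕ) : ℝ) ≤ 32 / a := by
    push_cast
    have h1 : (((n / (2 * m + 1) : ℕ)) : ℝ) ≤ (n:ℝ) / (2 * m + 1) := by
      have := Nat.cast_div_le (m := n) (n := 2 * m + 1) (α := ℝ)
      push_cast at this
      exact this
    have h2 : (n:ℝ) / (2 * m + 1) ≤ 16 / a := by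
      rw [div_le_div_iff₀ hm0 ha]
      linarith
    have h3 : (1:ℝ) ≤ 16 / a := by
      rw [le_div_iff₀ ha]
      linarith
    have h4 : (32:ℝ) / a = 16 / a + 16 / a := by ring
    have h5 : (n:ℝ) / (2 * m + 1) + 1 ≤ 32 / a := by linarith
    push_cast at h1
    linarith
  have hM0 : 0 < (a^16)⁻¹ := by positivity
  have hM1 : (a^16)⁻¹ ≤ (M:ℝ) := Nat.le_ceil _
  have hM3 : 1 ≤ (a^16)⁻¹ := by
    rw [one_le_inv₀ (by positivity)]
    exact pow_le_one₀ ha.le ha1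
  have hM2 : (M:ℝ) ≤ 2 * (a^16)⁻¹ := by
    have := Nat.ceil_lt_add_one hM0.le
    linarith
  have hMpos : (0:ℝ) < M := by linarith
  -- n * a^16 is large
  have hna16 : 1 ≤ (n:ℝ) * a ^ 16 := by
    have e : (n:ℝ) * a ^ 32 = (n * a ^ 16) * a ^ 16 := by ring
    rw [e] at hn
    have h1 : a ^ 16 ≤ 1 := pow_le_one₀ ha.le ha1
    have h2 : 0 < (n:ℝ) * a ^ 16 := by positivity
    nlinarith
  have hWW : (WW n M (a^32 * n) : ℝ) ≤ 15 * (n * a ^ 16) := by
    have h1 : ((⌈(n:ℝ) / M + 6 * (a^32 * n) * M⌉ : ℤ) : ℝ) < (n:ℝ) / M + 6 * (a^32 * n) * M + 1 :=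
      Int.ceil_lt_add_one _
    have h2 : (n:ℝ) / M ≤ n * a ^ 16 := by
      rw [div_le_iff₀ hMpos]
      have h3 : a ^ 16 * (a^16)⁻¹ = 1 := mul_inv_cancel₀ (by positivity)
      have h4 : 1 ≤ a ^ 16 * M := by
        rw [← h3]
        exact mul_le_mul_of_nonneg_left hM1 (by positivity)
      nlinarith
    have h3 : 6 * (a^32 * n) * M ≤ 12 * (n * a ^ 16) := by
      have h4 : 6 * (a^32 * n) * M ≤ 6 * (a^32 * n) * (2 * (a^16)⁻¹) :=
        mul_le_mul_of_nonneg_left hM2 (by positivity)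
      have h5 : 6 * (a^32 * n) * (2 * (a^16)⁻¹) = 12 * (n * a ^ 16) := by
        field_simp
        ring
      linarith
    unfold WW
    push_cast
    linarith
  have hWW0 : (0:ℝ) ≤ WW n M (a^32 * n) := by
    have hh : (0:ℝ) ≤ a^32 * n := by positivity
    exact Int.cast_nonneg (WW_nonneg n M hh)
  have hsq : Real.sqrt M ≤ 2 * (a ^ 8)⁻¹ := by
    rw [Real.sqrt_le_left (by positivity)]
    have e : (2 * (a ^ 8)⁻¹) ^ 2 = 4 * (a^16)⁻¹ := by
      field_simp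
      ring
    rw [e]
    linarith
  have hM4 : 8 * (M:ℝ) ≤ 16 * (n * a ^ 16) := by
    have h1 : (a^16)⁻¹ ≤ n * a ^ 16 := by
      rw [inv_le_iff_one_le_mul₀ (by positivity)]
      calc (1:ℝ) ≤ (n:ℝ) * a ^ 32 := hn
        _ = _ := by ring
    linarith
  have ha8 : a ^ 16 ≤ a ^ 8 := pow_le_pow_of_le_one ha.le ha1 (by norm_num)
  have hsum : 2 * (WW n M (a^32 * n) : ℝ) + 8 * M + 4 * (WW n M (a^32 * n)) * Real.sqrt M ≤
      166 * (n * a ^ 8) := by
    have h1 : 4 * (WW n M (a^32 * n) : ℝ) * Real.sqrt M ≤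
        4 * (15 * (n * a ^ 16)) * (2 * (a ^ 8)⁻¹) := by
      apply mul_le_mul (by linarith) hsq (Real.sqrt_nonneg _) (by positivity)
    have h2 : 4 * (15 * ((n:ℝ) * a ^ 16)) * (2 * (a ^ 8)⁻¹) = 120 * (n * a ^ 8) := by
      field_simp
      ring
    have h3 : (n:ℝ) * a ^ 16 ≤ n * a ^ 8 := mul_le_mul_of_nonneg_left ha8 hn0.le
    linarith
  unfold BM
  have hfac : C' ^ 2 * (((n / (2 * m + 1) + 1 : ℕ) : ℝ)) ^ 3 / (2 * m + 1) ≤
      C' ^ 2 * (32 / a) ^ 3 / (a * n / 16) := by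
    apply div_le_div₀ (by positivity) _ (by positivity) hm3
    apply mul_le_mul_of_nonneg_left _ (by positivity)
    exact pow_le_pow_left₀ (by positivity) hT 3
  calc C' ^ 2 * (((n / (2 * m + 1) + 1 : ℕ) : ℝ)) ^ 3 / (2 * m + 1) *
        (2 * (WW n M (a^32 * n)) + 8 * M + 4 * (WW n M (a^32 * n)) * Real.sqrt M)
      ≤ C' ^ 2 * (32 / a) ^ 3 / (a * n / 16) * (166 * (n * a ^ 8)) := by
        apply mul_le_mul hfac hsum (by positivity) (by positivity)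
    _ = 87031808 * C' ^ 2 * a ^ 4 := by
        field_simp
        ring
    _ ≤ 10^8 * C'^2 * a^4 := by
        have : 0 ≤ C' ^ 2 * a ^ 4 := by positivity
        nlinarith

/-- The main estimates for clusters of diameter at least `ρ n`. -/
theorem main_bounds : ∃ C c K : ℝ, 0 < C ∧ 0 < c ∧ 0 < K ∧ ∀ (n : ℕ) (ρ ε : ℝ), 1 ≤ n → 0 < ρ →
    ρ ≤ 1 → 1 ≤ ε * n → ∀ D : ℕ, ρ ^ 2 * n ^ 2 ≤ D →
    PQ (1/2) (RE 0 n 0 n) (EvT n D (ε * n)) ≤ C * (ρ ^ (-K) * ε ^ c) ∧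
    ∀ x : ℝ, x ≤ 2 * n → PQ (1/2) (RE 0 n 0 n) (EvW n D x (ε * n)) ≤ C * (ρ ^ (-K) * ε ^ c) := by
  obtain ⟨C', hC'1, hC'⟩ := ex_XM
  obtain ⟨CA, α, hCA, hα, hA⟩ := ex_arm
  set c : ℝ := min (1/8) (α/32) with hc
  have hc0 : 0 < c := lt_min (by norm_num) (by positivity)
  set K : ℝ := α + 2 with hK
  set C0 : ℝ := 4 * (CA * 2 ^ α) + (2 * (CA * 2 ^ α) + 10^8 * C'^2) * (169 * C') with hC0
  have hC'0 : 0 < C' := by linarith
  have hC0pos : 0 < C0 := by positivity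
  refine ⟨C0 + 2 ^ (32 * c) + 7 ^ (32 * c), c, K, by positivity, hc0, by positivity, ?_⟩
  intro n ρ ε hn hρ hρ1 hεn D hD
  have hn0 : (0:ℝ) < n := by exact_mod_cast hn
  have hε : 0 < ε := by
    by_contra h
    push Not at h
    nlinarith
  have hρK : 1 ≤ ρ ^ (-K) := Real.one_le_rpow_of_pos_of_le_one_of_nonpos hρ hρ1 (by linarith)
  -- the trivial cases
  by_cases h1 : (1/2:ℝ) ^ 32 ≤ ε
  · have k1 : 1 ≤ (C0 + 2 ^ (32 * c) + 7 ^ (32 * c)) * (ρ ^ (-K) * ε ^ c) := by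
      have k2 : ((1/2:ℝ) ^ 32) ^ c ≤ ε ^ c := Real.rpow_le_rpow (by positivity) h1 hc0.le
      have k3 : (2:ℝ) ^ (32 * c) * ((1/2:ℝ) ^ 32) ^ c = 1 := by
        rw [Real.rpow_mul (by norm_num), ← Real.mul_rpow (by positivity) (by positivity)]
        norm_num
      have k4 : 1 ≤ (2:ℝ) ^ (32 * c) * ε ^ c := by
        rw [← k3]
        exact mul_le_mul_of_nonneg_left k2 (by positivity)
      calc (1:ℝ) ≤ (2:ℝ) ^ (32 * c) * ε ^ c := k4
        _ ≤ (C0 + 2 ^ (32 * c) + 7 ^ (32 * c)) * (ρ ^ (-K) * ε ^ c) := by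
            apply mul_le_mul
            · have : 0 < (7:ℝ) ^ (32 * c) := by positivity
              linarith
            · exact le_mul_of_one_le_left (by positivity) hρK
            · positivity
            · positivity
    exact ⟨(Pr_le_one okh _ _).trans k1, fun x _ => (Pr_le_one okh _ _).trans k1⟩
  push Not at h1
  have hε1 : ε ≤ 1 := h1.le.trans (by norm_num)
  set a : ℝ := ε ^ (1/32:ℝ) with ha
  have ha0 : 0 < a := by positivity
  have ha32 : a ^ 32 = ε := by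
    rw [ha, ← Real.rpow_natCast, ← Real.rpow_mul hε.le]
    norm_num
  have ha2 : a ≤ 1/2 := by
    rw [← ha32] at h1
    exact (lt_of_pow_lt_pow_left₀ 32 (by norm_num) h1).le
  have hac : ∀ t : ℝ, c ≤ t / 32 → a ^ t ≤ ε ^ c := by
    intro t ht
    rw [ha, ← Real.rpow_mul hε.le]
    apply Real.rpow_le_rpow_of_exponent_ge hε hε1
    linarith
  by_cases h2 : ρ / 100 < a / 16
  · have k1 : 1 ≤ (C0 + 2 ^ (32 * c) + 7 ^ (32 * c)) * (ρ ^ (-K) * ε ^ c) := by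
      have k2 : ε ^ c = a ^ (32 * c) := by
        rw [ha, ← Real.rpow_mul hε.le]
        congr 1
        ring
      have k3 : (ρ / 7) ^ (32 * c) ≤ a ^ (32 * c) :=
        Real.rpow_le_rpow (by positivity) (by linarith) (by positivity)
      have k4 : (7:ℝ) ^ (32 * c) * (ρ / 7) ^ (32 * c) = ρ ^ (32 * c) := by
        rw [← Real.mul_rpow (by norm_num) (by positivity)]
        congr 1
        ring
      have k5 : 1 ≤ ρ ^ (-K) * ρ ^ (32 * c) := by
        rw [← Real.rpow_add hρ]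
        apply Real.one_le_rpow_of_pos_of_le_one_of_nonpos hρ hρ1
        have : c ≤ α / 32 := min_le_right _ _
        rw [hK]
        linarith
      calc (1:ℝ) ≤ ρ ^ (-K) * ρ ^ (32 * c) := k5
        _ = 7 ^ (32 * c) * (ρ ^ (-K) * (ρ / 7) ^ (32 * c)) := by rw [← k4]; ring
        _ ≤ (C0 + 2 ^ (32 * c) + 7 ^ (32 * c)) * (ρ ^ (-K) * ε ^ c) := by
            apply mul_le_mul
            · have : 0 < (2:ℝ) ^ (32 * c) := by positivity
              linarith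
            · rw [k2]
              exact mul_le_mul_of_nonneg_left k3 (by positivity)
            · positivity
            · positivity
    exact ⟨(Pr_le_one okh _ _).trans k1, fun x _ => (Pr_le_one okh _ _).trans k1⟩
  push Not at h2
  -- the main case
  have hna : 1 ≤ (n:ℝ) * a ^ 32 := by rw [ha32]; linarith
  have ha31 : a ^ 31 ≤ 1 / 16 := by
    calc a ^ 31 ≤ (1/2) ^ 31 := pow_le_pow_left₀ ha0.le ha2 31
      _ ≤ 1 / 16 := by norm_num
  have han : 16 ≤ a * n := by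
    have e : (n:ℝ) * a ^ 32 = (a * n) * a ^ 31 := by ring
    rw [e] at hna
    have hpos : 0 < a * n := by positivity
    nlinarith
  have hρn : 100 ≤ ρ * n := by nlinarith
  set m := ⌊a * n / 16⌋₊ with hm
  set M := ⌈(a^16)⁻¹⌉₊ with hM
  set R := ⌊ρ * n / 3⌋₊ with hR
  set m1 := ⌊ρ * n / 12⌋₊ with hm1
  have hmle : (m:ℝ) ≤ a * n / 16 := Nat.floor_le (by positivity)
  have hRle : (R:ℝ) ≤ ρ * n / 3 := Nat.floor_le (by positivity)
  have hRlt : ρ * n / 3 < (R:ℝ) + 1 := Nat.lt_floor_add_one _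
  have hm1le : (m1:ℝ) ≤ ρ * n / 12 := Nat.floor_le (by positivity)
  have hm1lt : ρ * n / 12 < (m1:ℝ) + 1 := Nat.lt_floor_add_one _
  have hman : a * n / 16 ≤ ρ * n / 100 := by nlinarith
  have g1 : 1 ≤ M := by
    rw [Nat.one_le_iff_ne_zero, hM, Ne, Nat.ceil_eq_zero, not_le]
    positivity
  have g2 : 1 ≤ m := by
    rw [hm, Nat.one_le_floor_iff]
    linarith
  have g3 : 10 * m ≤ n := by
    have : (10:ℝ) * m ≤ n := by nlinarith
    exact_mod_cast this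
  have g4 : 4 * m ≤ R := by
    have : (4:ℝ) * m < (R:ℝ) + 1 := by linarith
    have h5 : 4 * m < R + 1 := by exact_mod_cast this
    omega
  have g5 : 8 * R ^ 2 ≤ D := by
    have : (8:ℝ) * (R:ℝ) ^ 2 ≤ D := by
      have h6 : (R:ℝ) ^ 2 ≤ (ρ * n / 3) ^ 2 := pow_le_pow_left₀ (by positivity) hRle 2
      nlinarith
    exact_mod_cast this
  have g6 : 256 * m ^ 2 < D := by
    have : (256:ℝ) * (m:ℝ) ^ 2 < D := by
      have h6 : (m:ℝ) ^ 2 ≤ (ρ * n / 100) ^ 2 := pow_le_pow_left₀ (by positivity) (by linarith) 2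
      nlinarith
    exact_mod_cast this
  have g7 : 1 ≤ m1 := by
    rw [hm1, Nat.one_le_floor_iff]
    linarith
  have g8 : 128 * m1 ^ 2 ≤ D := by
    have : (128:ℝ) * (m1:ℝ) ^ 2 ≤ D := by
      have h6 : (m1:ℝ) ^ 2 ≤ (ρ * n / 12) ^ 2 := pow_le_pow_left₀ (by positivity) hm1le 2
      nlinarith
    exact_mod_cast this
  have hh : 0 ≤ ε * n := by positivity
  have hBM : BM C' n M m (ε * n) ≤ 10^8 * C'^2 * ε ^ c := by
    have := BM_le (C' := C') ha0 ha2 hna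
    rw [ha32] at this
    refine this.trans ?_
    apply mul_le_mul_of_nonneg_left _ (by positivity)
    have h6 := hac 4 ((min_le_left _ _).trans (by norm_num))
    rw [show (4:ℝ) = ((4:ℕ):ℝ) by norm_num, Real.rpow_natCast] at h6
    exact h6
  have hBM0 : 0 ≤ BM C' n M m (ε * n) :=
    (Pr_nonneg okh _ _).trans (pr_EvP hC'0.le hC' g1 g2 g3 (s := 0) hh ∅)
  have hR0 : (0:ℝ) < R := by linarith
  have harm : CA * (((4 * m : ℕ):ℝ) / R) ^ α ≤ CA * 2 ^ α * (ρ ^ (-α) * ε ^ c) := by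
    have h6 : ((4 * m : ℕ):ℝ) / R ≤ 2 * (a / ρ) := by
      push_cast
      rw [div_le_iff₀ hR0]
      have h7 : ρ * n / 6 ≤ R := by linarith
      have h8 : 2 * (a / ρ) * (ρ * n / 6) ≤ 2 * (a / ρ) * R :=
        mul_le_mul_of_nonneg_left h7 (by positivity)
      have h9 : 2 * (a / ρ) * (ρ * n / 6) = a * n / 3 := by
        field_simp
        ring
      linarith
    have h7 : (((4 * m : ℕ):ℝ) / R) ^ α ≤ (2 * (a / ρ)) ^ α :=
      Real.rpow_le_rpow (by positivity) h6 hα.le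
    have h8 : (2 * (a / ρ)) ^ α = 2 ^ α * (a ^ α * ρ ^ (-α)) := by
      rw [Real.mul_rpow (by norm_num) (by positivity), Real.div_rpow ha0.le hρ.le,
        Real.rpow_neg hρ.le]
      rfl
    have h9 := hac α (min_le_right _ _)
    calc CA * (((4 * m : ℕ):ℝ) / R) ^ α ≤ CA * (2 ^ α * (a ^ α * ρ ^ (-α))) := by
          rw [← h8]
          exact mul_le_mul_of_nonneg_left h7 hCA.le
      _ ≤ CA * (2 ^ α * (ε ^ c * ρ ^ (-α))) := by
          apply mul_le_mul_of_nonneg_left _ hCA.le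
          apply mul_le_mul_of_nonneg_left _ (by positivity)
          exact mul_le_mul_of_nonneg_right h9 (by positivity)
      _ = CA * 2 ^ α * (ρ ^ (-α) * ε ^ c) := by ring
  have hT1 : ((n / (2 * m1 + 1) + 1 : ℕ) : ℝ) ≤ 13 / ρ := by
    push_cast
    have h6 : (((n / (2 * m1 + 1) : ℕ)) : ℝ) ≤ (n:ℝ) / (2 * m1 + 1) := by
      have := Nat.cast_div_le (m := n) (n := 2 * m1 + 1) (α := ℝ)
      push_cast at this
      exact this
    have h7 : (n:ℝ) / (2 * m1 + 1) ≤ 12 / ρ := by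
      rw [div_le_div_iff₀ (by positivity) hρ]
      linarith
    have h8 : (1:ℝ) ≤ 1 / ρ := by
      rw [le_div_iff₀ hρ]
      linarith
    have h9 : (13:ℝ) / ρ = 12 / ρ + 1 / ρ := by ring
    push_cast at h6
    linarith
  have hρα : ρ ^ (-α) ≤ ρ ^ (-K) := by
    apply Real.rpow_le_rpow_of_exponent_ge hρ hρ1
    linarith
  have hρ2 : (13 / ρ) ^ 2 = 169 * ρ ^ (-2:ℝ) := by
    rw [Real.rpow_neg hρ.le, show (2:ℝ) = ((2:ℕ):ℝ) by norm_num, Real.rpow_natCast]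
    field_simp
    norm_num
  have hρ2' : ρ ^ (-2:ℝ) ≤ ρ ^ (-K) := by
    apply Real.rpow_le_rpow_of_exponent_ge hρ hρ1
    linarith
  have hρprod : ρ ^ (-α) * ρ ^ (-2:ℝ) = ρ ^ (-K) := by
    rw [← Real.rpow_add hρ, hK]
    congr 1
    ring
  have hεc : 0 < ε ^ c := by positivity
  have hp1 : 0 < ρ ^ (-α) := by positivity
  have hp2 : 0 < ρ ^ (-2:ℝ) := by positivity
  have hcst : C0 * (ρ ^ (-K) * ε ^ c) ≤
      (C0 + 2 ^ (32 * c) + 7 ^ (32 * c)) * (ρ ^ (-K) * ε ^ c) := by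
    apply mul_le_mul_of_nonneg_right _ (by positivity)
    have : 0 < (7:ℝ) ^ (32 * c) := by positivity
    have : 0 < (2:ℝ) ^ (32 * c) := by positivity
    linarith
  constructor
  · refine (pr_EvT hC'0.le hC' hA g1 g2 g3 g4 g5 g6 g7 g8 hh).trans (le_trans ?_ hcst)
    have e1 : 4 * (CA * (((4 * m : ℕ):ℝ) / R) ^ α) ≤ 4 * (CA * 2 ^ α) * (ρ ^ (-K) * ε ^ c) := by
      have : CA * 2 ^ α * (ρ ^ (-α) * ε ^ c) ≤ CA * 2 ^ α * (ρ ^ (-K) * ε ^ c) :=
        mul_le_mul_of_nonneg_left (mul_le_mul_of_nonneg_right hρα hεc.le) (by positivity)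
      linarith
    have e2 : 2 * (CA * (((4 * m : ℕ):ℝ) / R) ^ α) + BM C' n M m (ε * n) ≤
        (2 * (CA * 2 ^ α) + 10^8 * C'^2) * (ρ ^ (-α) * ε ^ c) := by
      have k1 : 1 ≤ ρ ^ (-α) := Real.one_le_rpow_of_pos_of_le_one_of_nonpos hρ hρ1 (by linarith)
      have k2 : 10^8 * C'^2 * ε ^ c ≤ 10^8 * C'^2 * (ρ ^ (-α) * ε ^ c) :=
        mul_le_mul_of_nonneg_left (le_mul_of_one_le_left hεc.le k1) (by positivity)
      linarith
    have e3 : C' * (((n / (2 * m1 + 1) + 1 : ℕ) : ℝ)) ^ 2 ≤ C' * (169 * ρ ^ (-2:ℝ)) := by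
      rw [← hρ2]
      exact mul_le_mul_of_nonneg_left (pow_le_pow_left₀ (by positivity) hT1 2) hC'0.le
    have e4 : (2 * (CA * (((4 * m : ℕ):ℝ) / R) ^ α) + BM C' n M m (ε * n)) *
        (C' * (((n / (2 * m1 + 1) + 1 : ℕ) : ℝ)) ^ 2) ≤
        (2 * (CA * 2 ^ α) + 10^8 * C'^2) * (169 * C') * (ρ ^ (-K) * ε ^ c) := by
      refine (mul_le_mul e2 e3 (by positivity) (by positivity)).trans (le_of_eq ?_)
      rw [← hρprod]
      ring
    rw [hC0]
    linarith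
  · intro x hx
    refine (pr_EvW hC'0.le hC' hA g1 g2 g3 g4 g5 g6 hx hh).trans (le_trans ?_ hcst)
    have e1 : 4 * (CA * (((4 * m : ℕ):ℝ) / R) ^ α) ≤ 4 * (CA * 2 ^ α) * (ρ ^ (-K) * ε ^ c) := by
      have : CA * 2 ^ α * (ρ ^ (-α) * ε ^ c) ≤ CA * 2 ^ α * (ρ ^ (-K) * ε ^ c) :=
        mul_le_mul_of_nonneg_left (mul_le_mul_of_nonneg_right hρα hεc.le) (by positivity)
      linarith
    have e2 : BM C' n M m (ε * n) ≤ (10^8 * C'^2) * (ρ ^ (-K) * ε ^ c) :=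
      hBM.trans (mul_le_mul_of_nonneg_left (le_mul_of_one_le_left hεc.le hρK) (by positivity))
    have e3 : 10^8 * C'^2 ≤ (2 * (CA * 2 ^ α) + 10^8 * C'^2) * (169 * C') := by
      have h0 : 0 < CA * (2:ℝ) ^ α := by positivity
      nlinarith [sq_nonneg C']
    have e4 : (10^8 * C'^2) * (ρ ^ (-K) * ε ^ c) ≤
        (2 * (CA * 2 ^ α) + 10^8 * C'^2) * (169 * C') * (ρ ^ (-K) * ε ^ c) :=
      mul_le_mul_of_nonneg_right e3 (by positivity)
    rw [hC0]
    linarith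

end Pool.Agent.H950.NT
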