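import Pool.Agent.H950.NT.Net

/-!
The probability that two extremal vertices have a prescribed approximate distance.
-/

set_option autoImplicit false

namespace Pool.Agent.H950.NT

open H974 H12S Finset H342P

theorem PQ_union {ι : Type*} (S : Finset Edg) (T : Finset ι) (A : ι → Finset Edg → Prop) :
    PQ (1/2) S (fun F => ∃ i ∈ T, A i F) ≤ ∑ i ∈ T, PQ (1/2) S (A i) := by
  classical
  induction T using Finset.induction_on with
  | empty =>
    rw [Finset.sum_empty]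
    have : PQ (1/2) S (fun F => ∃ i ∈ (∅ : Finset ι), A i F) ≤ PQ (1/2) S (fun _ => False) := by
      apply Pr_mono okh
      rintro F _ ⟨i, hi, _⟩
      simp at hi
    refine this.trans ?_
    unfold PQ Pr
    rw [Ex_congr (g := fun _ => (0:ℝ)) (fun F _ => ind_not_of (fun h => h)), Ex_const]
  | insert a T ha ih =>
    rw [Finset.sum_insert ha]
    refine le_trans ?_ (add_le_add le_rfl ih)
    refine le_trans ?_ (Pr_or_le okh S (A a) (fun F => ∃ i ∈ T, A i F))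
    apply Pr_mono okh
    rintro F _ ⟨i, hi, h⟩
    rcases Finset.mem_insert.mp hi with rfl | hi
    · exact Or.inl h
    · exact Or.inr ⟨i, hi, h⟩

/-- The conditions on a pair of extremal vertices. -/
structure PC (n q : ℕ) (k : Finset Edg) (a W : ℤ) (u z w : ℤ × ℤ) : Prop where
  hz : z ∈ Finset.Icc (0:ℤ) n ×ˢ Finset.Icc (0:ℤ) n
  hw : w ∈ Finset.Icc (0:ℤ) n ×ˢ Finset.Icc (0:ℤ) n
  cor : NCor n q z
  dis : Disjoint (blk z q) (blk w q)
  kz : Disjoint (RE 0 n 0 n ∩ blk z q) k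
  kw : Disjoint (RE 0 n 0 n ∩ blk w q) k
  lo : a + ip u w ≤ ip u z
  hi : ip u z ≤ a + ip u w + W

theorem XM_sdiff {n : ℕ} {u : ℤ × ℤ} {q : ℕ} {z : Vtx} {k : Finset Edg}
    (h : Disjoint (RE 0 n 0 n ∩ blk z q) k) :
    PQ (1/2) (RE 0 n 0 n \ k) (fun F => XM u q z ↑F) = Gz n u q z := by
  unfold Gz
  apply XM_loc
  ext x
  simp only [Finset.mem_inter, Finset.mem_sdiff]
  constructor
  · rintro ⟨⟨h1, _⟩, h2⟩; exact ⟨h1, h2⟩
  · rintro ⟨h1, h2⟩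
    exact ⟨⟨h1, fun h3 => Finset.disjoint_left.mp h (Finset.mem_inter.mpr ⟨h1, h2⟩) h3⟩, h2⟩

theorem pair_one {n q : ℕ} {k : Finset Edg} {a W : ℤ} {u z w : ℤ × ℤ}
    (h : PC n q k a W u z w) :
    PQ (1/2) (RE 0 n 0 n \ k) (fun F => XM u q z ↑F ∧ XM (ng u) q w ↑F) =
      Gz n u q z * Gz n (ng u) q w := by
  rw [← XM_sdiff h.kz, ← XM_sdiff h.kw]
  have key : ∀ (v : Vtx) (F : Finset Edg), F ⊆ RE 0 n 0 n \ k →
      F ∩ blk v q = (F ∩ ((RE 0 n 0 n \ k) ∩ blk v q)) ∩ blk v q := by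
    intro v F hF
    ext x
    simp only [Finset.mem_inter]
    constructor
    · rintro ⟨h1, h2⟩; exact ⟨⟨h1, hF h1, h2⟩, h2⟩
    · rintro ⟨⟨h1, -, -⟩, h2⟩; exact ⟨h1, h2⟩
  apply Pr_indep (S := (RE 0 n 0 n \ k) ∩ blk z q) (T := (RE 0 n 0 n \ k) ∩ blk w q)
    Finset.inter_subset_left Finset.inter_subset_left
  · exact Finset.disjoint_of_subset_left Finset.inter_subset_right
      (Finset.disjoint_of_subset_right Finset.inter_subset_right h.dis)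
  · intro F hF
    exact XM_congr (key z F hF)
  · intro F hF
    exact XM_congr (key w F hF)

theorem ng2 {u : ℤ × ℤ} (h : u.2 ≠ 0) : (ng u).2 ≠ 0 := by
  unfold ng
  simpa using h

theorem pair_bound {C : ℝ} (hC0 : 0 ≤ C) (hC : ∀ (S : Finset Edg) (u : ℤ × ℤ), u.2 ≠ 0 →
    ∀ (m ρ : ℕ), 1 ≤ m → 4 * m ≤ ρ → ∀ c : ℤ × ℤ,
    ∑ z ∈ bx c m, PQ (1/2) S (fun F => XM u ρ z ↑F) ≤ C)
    {n M m : ℕ} (hM : 1 ≤ M) (hm : 1 ≤ m) (hn : 10 * m ≤ n) (k : Finset Edg) (a : ℤ × ℤ → ℤ)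
    {W : ℤ} (hW : 0 ≤ W) :
    PQ (1/2) (RE 0 n 0 n \ k) (fun F => ∃ u ∈ Net M, ∃ z w : ℤ × ℤ,
      PC n (4 * m) k (a u) W u z w ∧ XM u (4 * m) z ↑F ∧ XM (ng u) (4 * m) w ↑F) ≤
      ∑ u ∈ Net M, C * (((n / (2 * m + 1) + 1 : ℕ) : ℝ)) ^ 2 * SB C n m u W := by
  classical
  refine (PQ_union _ _ _).trans ?_
  apply Finset.sum_le_sum
  intro u hu
  obtain ⟨hu1, hu2⟩ := Net_ne hM hu
  set B : Finset (ℤ × ℤ) := Finset.Icc (0:ℤ) n ×ˢ Finset.Icc (0:ℤ) n with hB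
  -- union bound over the pairs
  have h1 : PQ (1/2) (RE 0 n 0 n \ k) (fun F => ∃ z w : ℤ × ℤ,
      PC n (4 * m) k (a u) W u z w ∧ XM u (4 * m) z ↑F ∧ XM (ng u) (4 * m) w ↑F) ≤
      ∑ w ∈ B, ∑ z ∈ B.filter (fun z => PC n (4 * m) k (a u) W u z w),
        PQ (1/2) (RE 0 n 0 n \ k) (fun F => XM u (4 * m) z ↑F ∧ XM (ng u) (4 * m) w ↑F) := by
    refine le_trans ?_ ((PQ_union _ B (fun w F => ∃ z ∈ B.filter
      (fun z => PC n (4 * m) k (a u) W u z w), XM u (4 * m) z ↑F ∧ XM (ng u) (4 * m) w ↑F)).trans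
        (Finset.sum_le_sum fun w _ => PQ_union _ _ _))
    apply Pr_mono okh
    rintro F _ ⟨z, w, hP, h2, h3⟩
    exact ⟨w, hP.hw, z, Finset.mem_filter.mpr ⟨hP.hz, hP⟩, h2, h3⟩
  refine h1.trans ?_
  have h2 : ∀ w ∈ B, ∑ z ∈ B.filter (fun z => PC n (4 * m) k (a u) W u z w),
        PQ (1/2) (RE 0 n 0 n \ k) (fun F => XM u (4 * m) z ↑F ∧ XM (ng u) (4 * m) w ↑F) ≤
      Gz n (ng u) (4 * m) w * SB C n m u W := by
    intro w _
    have h3 : ∀ z ∈ B.filter (fun z => PC n (4 * m) k (a u) W u z w),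
        PQ (1/2) (RE 0 n 0 n \ k) (fun F => XM u (4 * m) z ↑F ∧ XM (ng u) (4 * m) w ↑F) =
        Gz n (ng u) (4 * m) w * Gz n u (4 * m) z := by
      intro z hz
      rw [pair_one (Finset.mem_filter.mp hz).2, mul_comm]
    rw [Finset.sum_congr rfl h3, ← Finset.mul_sum]
    apply mul_le_mul_of_nonneg_left _ (Gz_nonneg _ _ _ _)
    refine le_trans ?_ (sum_strip hC hu1 hu2 hm le_rfl (by omega) (a u + ip u w) W hW)
    apply Finset.sum_le_sum_of_subset_of_nonneg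
    · intro z hz
      rw [Finset.mem_filter] at hz ⊢
      exact ⟨hz.1, hz.2.cor, hz.2.lo, hz.2.hi⟩
    · intro z _ _
      exact Gz_nonneg _ _ _ _
  refine (Finset.sum_le_sum h2).trans ?_
  rw [← Finset.sum_mul]
  apply mul_le_mul_of_nonneg_right (sum_tot hC (ng2 hu2) hm le_rfl)
  unfold SB
  have k1 : (0:ℝ) ≤ (W:ℝ) / |(u.1:ℝ)| := div_nonneg (by exact_mod_cast hW) (abs_nonneg _)
  have k2 : (0:ℝ) ≤ (W:ℝ) / |(u.2:ℝ)| := div_nonneg (by exact_mod_cast hW) (abs_nonneg _)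
  positivity

/-! ### The sum over the directions -/

theorem harm (M : ℕ) (hM : 1 ≤ M) : ∑ j ∈ Finset.range M, 1 / (2 * (j:ℝ) + 1) ≤ Real.sqrt M := by
  induction M, hM using Nat.le_induction with
  | base => simp
  | succ M hM ih =>
    rw [Finset.sum_range_succ]
    have hM' : (1:ℝ) ≤ M := by exact_mod_cast hM
    have h1 : Real.sqrt M + 1 / (2 * (M:ℝ) + 1) ≤ Real.sqrt ((M + 1 : ℕ) : ℝ) := by
      push_cast
      have hs : 0 ≤ Real.sqrt M := Real.sqrt_nonneg _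
      have hs2 : Real.sqrt M * Real.sqrt M = M := Real.mul_self_sqrt (by linarith)
      have hsM : Real.sqrt M ≤ M := by
        rw [Real.sqrt_le_left (by linarith)]
        nlinarith
      apply Real.le_sqrt_of_sq_le
      have hd : (0:ℝ) < 2 * M + 1 := by linarith
      have e : (Real.sqrt M + 1 / (2 * (M:ℝ) + 1)) ^ 2 =
          M + (2 * Real.sqrt M * (2 * M + 1) + 1) / (2 * M + 1) ^ 2 := by
        field_simp
        nlinarith [hs2]
      rw [e]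
      have : (2 * Real.sqrt M * (2 * M + 1) + 1) / (2 * (M:ℝ) + 1) ^ 2 ≤ 1 := by
        rw [div_le_one (by positivity)]
        nlinarith
      linarith
    linarith

theorem sum_Ico_abs (M : ℕ) (hM : 1 ≤ M) :
    ∑ j ∈ Finset.Ico (-(M:ℤ)) M, 1 / |2 * (j:ℝ) + 1| ≤ 2 * Real.sqrt M := by
  have h1 : Finset.Ico (-(M:ℤ)) M = Finset.Ico (-(M:ℤ)) 0 ∪ Finset.Ico 0 (M:ℤ) := by
    ext j
    simp only [Finset.mem_union, Finset.mem_Ico]
    omega
  have hd : Disjoint (Finset.Ico (-(M:ℤ)) 0) (Finset.Ico 0 (M:ℤ)) := by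
    rw [Finset.disjoint_left]
    intro j
    simp only [Finset.mem_Ico]
    omega
  rw [h1, Finset.sum_union hd]
  have e1 : ∑ j ∈ Finset.Ico 0 (M:ℤ), 1 / |2 * (j:ℝ) + 1| =
      ∑ j ∈ Finset.range M, 1 / (2 * (j:ℝ) + 1) := by
    symm
    apply Finset.sum_bij (fun (j : ℕ) _ => (j:ℤ))
    · intro j hj
      rw [Finset.mem_range] at hj
      rw [Finset.mem_Ico]
      omega
    · intro i _ j _ h
      exact_mod_cast h
    · intro j hj
      rw [Finset.mem_Ico] at hj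
      exact ⟨j.toNat, by rw [Finset.mem_range]; omega, by omega⟩
    · intro j _
      rw [abs_of_pos (by push_cast; positivity)]
      push_cast
      rfl
  have e2 : ∑ j ∈ Finset.Ico (-(M:ℤ)) 0, 1 / |2 * (j:ℝ) + 1| =
      ∑ j ∈ Finset.range M, 1 / (2 * (j:ℝ) + 1) := by
    symm
    apply Finset.sum_bij (fun (j : ℕ) _ => -(j:ℤ) - 1)
    · intro j hj
      rw [Finset.mem_range] at hj
      rw [Finset.mem_Ico]
      omega
    · intro i _ j _ h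
      omega
    · intro j hj
      rw [Finset.mem_Ico] at hj
      exact ⟨(-j - 1).toNat, by rw [Finset.mem_range]; omega, by omega⟩
    · intro j _
      push_cast
      rw [show 2 * (-(j:ℝ) - 1) + 1 = -(2 * (j:ℝ) + 1) by ring, abs_neg,
        abs_of_pos (by positivity)]
  rw [e1, e2]
  linarith [harm M hM]

theorem sum_union_le' {ι : Type*} [DecidableEq ι] {f : ι → ℝ} (hf : ∀ i, 0 ≤ f i)
    (A B : Finset ι) : ∑ i ∈ A ∪ B, f i ≤ ∑ i ∈ A, f i + ∑ i ∈ B, f i := by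
  rw [← Finset.sum_union_inter]
  have : 0 ≤ ∑ i ∈ A ∩ B, f i := Finset.sum_nonneg fun i _ => hf i
  linarith

theorem sum_Net {M : ℕ} (hM : 1 ≤ M) {W : ℝ} (hW : 0 ≤ W) :
    ∑ u ∈ Net M, (W / |(u.1:ℝ)| + 1 + (W / |(u.2:ℝ)| + 1)) ≤
      2 * W + 8 * M + 4 * W * Real.sqrt M := by
  classical
  have hM' : (0:ℝ) < M := by exact_mod_cast (by omega : 0 < M)
  have hnn : ∀ u : ℤ × ℤ, 0 ≤ (W / |(u.1:ℝ)| + 1 + (W / |(u.2:ℝ)| + 1)) := by
    intro u
    have k1 : (0:ℝ) ≤ W / |(u.1:ℝ)| := div_nonneg hW (abs_nonneg _)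
    have k2 : (0:ℝ) ≤ W / |(u.2:ℝ)| := div_nonneg hW (abs_nonneg _)
    linarith
  unfold Net
  refine (sum_union_le' hnn _ _).trans ?_
  have hcard : ((Finset.Ico (-(M:ℤ)) M).card : ℝ) = 2 * M := by
    rw [Int.card_Ico]
    have : ((M:ℤ) - -(M:ℤ)).toNat = 2 * M := by omega
    rw [this]
    push_cast
    ring
  have habs : |(((2 * (M:ℤ) : ℤ)) : ℝ)| = 2 * M := by
    push_cast
    exact abs_of_pos (by positivity)
  have base : ∑ j ∈ Finset.Ico (-(M:ℤ)) M, (W / (2 * (M:ℝ)) + 1 + (W / |2 * (j:ℝ) + 1| + 1)) ≤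
      W + 4 * M + 2 * W * Real.sqrt M := by
    have e : ∀ j ∈ Finset.Ico (-(M:ℤ)) M, (W / (2 * (M:ℝ)) + 1 + (W / |2 * (j:ℝ) + 1| + 1)) =
        (W / (2 * (M:ℝ)) + 2) + W * (1 / |2 * (j:ℝ) + 1|) := by
      intro j _
      ring
    rw [Finset.sum_congr rfl e, Finset.sum_add_distrib, Finset.sum_const, nsmul_eq_mul, hcard,
      ← Finset.mul_sum]
    have h1 := mul_le_mul_of_nonneg_left (sum_Ico_abs M hM) hW
    have h2 : 2 * (M:ℝ) * (W / (2 * M) + 2) = W + 4 * M := by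
      field_simp
      ring
    rw [h2]
    linarith
  have s1 : ∑ u ∈ (Finset.Ico (-(M:ℤ)) M).image (fun j : ℤ => ((2 * (M:ℤ), 2 * j + 1) : ℤ × ℤ)),
      (W / |(u.1:ℝ)| + 1 + (W / |(u.2:ℝ)| + 1)) ≤ W + 4 * M + 2 * W * Real.sqrt M := by
    rw [Finset.sum_image]
    · refine le_trans (le_of_eq ?_) base
      apply Finset.sum_congr rfl
      intro j _
      simp only
      rw [habs]
      push_cast
      rfl
    · intro i _ j _ h
      simp only [Prod.mk.injEq] at h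
      omega
  have s2 : ∑ u ∈ (Finset.Ico (-(M:ℤ)) M).image (fun j : ℤ => ((2 * j + 1, 2 * (M:ℤ)) : ℤ × ℤ)),
      (W / |(u.1:ℝ)| + 1 + (W / |(u.2:ℝ)| + 1)) ≤ W + 4 * M + 2 * W * Real.sqrt M := by
    rw [Finset.sum_image]
    · refine le_trans (le_of_eq ?_) base
      apply Finset.sum_congr rfl
      intro j _
      simp only
      rw [habs]
      push_cast
      ring
    · intro i _ j _ h
      simp only [Prod.mk.injEq] at h
      omega
  linarith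

theorem sum_SB {C : ℝ} {n M m : ℕ} (hM : 1 ≤ M) {W : ℤ} (hW : 0 ≤ W) :
    ∑ u ∈ Net M, C * (((n / (2 * m + 1) + 1 : ℕ) : ℝ)) ^ 2 * SB C n m u W ≤
      C ^ 2 * (((n / (2 * m + 1) + 1 : ℕ) : ℝ)) ^ 3 / (2 * m + 1) *
        (2 * W + 8 * M + 4 * W * Real.sqrt M) := by
  unfold SB
  have hW' : (0:ℝ) ≤ W := by exact_mod_cast hW
  have h1 := sum_Net hM hW'
  have e : ∀ u ∈ Net M, C * (((n / (2 * m + 1) + 1 : ℕ) : ℝ)) ^ 2 *
      (((W : ℝ) / |(u.1:ℝ)| + 1 + ((W : ℝ) / |(u.2:ℝ)| + 1)) *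
        (C * ((n / (2 * m + 1) + 1 : ℕ) : ℝ) / (2 * m + 1))) =
      C ^ 2 * (((n / (2 * m + 1) + 1 : ℕ) : ℝ)) ^ 3 / (2 * m + 1) *
        ((W : ℝ) / |(u.1:ℝ)| + 1 + ((W : ℝ) / |(u.2:ℝ)| + 1)) := by
    intro u _
    ring
  rw [Finset.sum_congr rfl e, ← Finset.mul_sum]
  exact mul_le_mul_of_nonneg_left h1 (by positivity)

end Pool.Agent.H950.NT
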