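import Pool.Agent.H950.NT.XM

/-!
Translation invariance and sums over rows and columns.
-/

set_option autoImplicit false

namespace Pool.Agent.H950.NT

open H974 H12S Finset H342P

theorem okh : Ok (fun _ : Edg => (1/2:ℝ)) := okq (by norm_num) (by norm_num)

/-- `XM` only depends on the edges of the box around `z`. -/
theorem XM_congr {u : ℤ × ℤ} {ρ : ℕ} {z : Vtx} {F G : Finset Edg}
    (h : F ∩ blk z ρ = G ∩ blk z ρ) : XM u ρ z (↑F : Set Edg) ↔ XM u ρ z (↑G : Set Edg) := by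
  unfold XM
  rw [← coe_int, ← coe_int, h]

theorem XM_loc {u : ℤ × ℤ} {ρ : ℕ} {z : Vtx} {S T : Finset Edg}
    (h : S ∩ blk z ρ = T ∩ blk z ρ) :
    PQ (1/2) S (fun F => XM u ρ z ↑F) = PQ (1/2) T (fun F => XM u ρ z ↑F) := by
  have key : ∀ S : Finset Edg, PQ (1/2) S (fun F => XM u ρ z ↑F) =
      PQ (1/2) (S ∩ blk z ρ) (fun F => XM u ρ z ↑F) := by
    intro S
    apply Pr_local Finset.inter_subset_left
    intro F hF
    apply XM_congr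
    ext x
    simp only [Finset.mem_inter]
    constructor
    · rintro ⟨h1, h2⟩; exact ⟨⟨h1, hF h1, h2⟩, h2⟩
    · rintro ⟨⟨h1, -, -⟩, h2⟩; exact ⟨h1, h2⟩
  rw [key S, key T, h]

theorem mp_blk (s t : ℤ) (z : Vtx) (ρ : ℕ) :
    (trl s t).mp (blk z ρ) = blk (z.1 + s, z.2 + t) ρ := by
  unfold blk
  rw [trl_RE]
  congr 1 <;> ring

theorem ip_shift (u z w : ℤ × ℤ) (s t : ℤ) :
    ip u (w.1 + s, w.2 + t) - ip u (z.1 + s, z.2 + t) = ip u w - ip u z := by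
  unfold ip
  ring

theorem Lx_shift {u z w : ℤ × ℤ} {s t : ℤ} :
    Lx u (z.1 + s, z.2 + t) (w.1 + s, w.2 + t) ↔ Lx u z w := by
  have h := ip_shift u z w s t
  unfold Lx
  constructor
  · rintro (h1 | ⟨h1, h2⟩)
    · left; linarith
    · right; exact ⟨by linarith, by simpa using h2⟩
  · rintro (h1 | ⟨h1, h2⟩)
    · left; linarith
    · right; exact ⟨by linarith, by simpa using h2⟩

theorem XM_shift {u : ℤ × ℤ} {ρ : ℕ} {z : Vtx} {s t : ℤ} {F : Finset Edg}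
    (h : XM u ρ z (↑F : Set Edg)) :
    XM u ρ (z.1 + s, z.2 + t) (↑((trl s t).mp F) : Set Edg) := by
  have hset : (↑((trl s t).mp F) : Set Edg) ∩ ↑(blk (z.1 + s, z.2 + t) ρ) =
      (trl s t).φ '' ((↑F : Set Edg) ∩ ↑(blk z ρ)) := by
    rw [← mp_blk, LSym.coe_mp, LSym.coe_mp, Set.image_inter (trl s t).φ.injective]
  obtain ⟨h1, w, hw, h2⟩ := h
  unfold XM
  rw [hset]
  constructor
  · intro v hv
    have h3 : Reach ((↑F : Set Edg) ∩ ↑(blk z ρ)) z (v.1 - s, v.2 - t) := by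
      rw [← (trl s t).reach_iff]
      have e1 : (trl s t).ψ z = (z.1 + s, z.2 + t) := rfl
      have e2 : (trl s t).ψ (v.1 - s, v.2 - t) = v := by
        rw [trl_ψ]
        simp
      rw [e1, e2]
      exact hv
    have h4 := h1 _ h3
    rw [← Lx_shift (s := s) (t := t)] at h4
    simpa using h4
  · refine ⟨(w.1 + s, w.2 + t), ?_, ?_⟩
    · unfold Far at hw ⊢
      simp only
      omega
    · exact (trl s t).reach h2

theorem XM_shift_iff {u : ℤ × ℤ} {ρ : ℕ} {z : Vtx} {s t : ℤ} {F : Finset Edg} :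
    XM u ρ (z.1 + s, z.2 + t) (↑((trl s t).mp F) : Set Edg) ↔ XM u ρ z (↑F : Set Edg) := by
  constructor
  · intro h
    have h1 := XM_shift (s := -s) (t := -t) h
    have e1 : (trl (-s) (-t)).mp ((trl s t).mp F) = F := by
      ext ⟨x, y, b⟩
      rw [LSym.mem_mp, LSym.mem_mp, trl_φs, trl_φs]
      simp
    rw [e1] at h1
    simpa using h1
  · exact XM_shift

/-- The probability that `z` is extremal. -/
noncomputable def Gz (n : ℕ) (u : ℤ × ℤ) (ρ : ℕ) (z : Vtx) : ℝ :=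
  PQ (1/2) (RE 0 n 0 n) (fun F => XM u ρ z ↑F)

theorem Gz_nonneg (n : ℕ) (u : ℤ × ℤ) (ρ : ℕ) (z : Vtx) : 0 ≤ Gz n u ρ z := Pr_nonneg okh _ _

theorem Gz_shift {n : ℕ} {u : ℤ × ℤ} {ρ : ℕ} {z : Vtx} {s t : ℤ}
    (h : (trl s t).mp (RE 0 n 0 n ∩ blk z ρ) = RE 0 n 0 n ∩ blk (z.1 + s, z.2 + t) ρ) :
    Gz n u ρ (z.1 + s, z.2 + t) = Gz n u ρ z := by
  unfold Gz
  have e1 : PQ (1/2) (RE 0 n 0 n) (fun F => XM u ρ (z.1 + s, z.2 + t) ↑F) =
      PQ (1/2) (RE 0 n 0 n ∩ blk (z.1 + s, z.2 + t) ρ)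
        (fun F => XM u ρ (z.1 + s, z.2 + t) ↑F) := by
    apply XM_loc
    rw [Finset.inter_assoc, Finset.inter_self]
  have e2 : PQ (1/2) (RE 0 n 0 n) (fun F => XM u ρ z ↑F) =
      PQ (1/2) (RE 0 n 0 n ∩ blk z ρ) (fun F => XM u ρ z ↑F) := by
    apply XM_loc
    rw [Finset.inter_assoc, Finset.inter_self]
  rw [e1, e2, ← h]
  unfold PQ
  rw [(trl s t).pr]
  apply Pr_congr
  intro F _
  exact XM_shift_iff

theorem Gz_h {n : ℕ} {u : ℤ × ℤ} {ρ : ℕ} {x x' y : ℤ} (h1 : (ρ:ℤ) ≤ x) (h2 : x ≤ n - ρ)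
    (h3 : (ρ:ℤ) ≤ x') (h4 : x' ≤ n - ρ) : Gz n u ρ (x', y) = Gz n u ρ (x, y) := by
  have h := Gz_shift (n := n) (u := u) (ρ := ρ) (z := (x, y)) (s := x' - x) (t := 0) (by
    ext ⟨a, b, t⟩
    rw [LSym.mem_mp, trl_φs]
    unfold blk
    cases t
    · simp only [Finset.mem_inter, mem_RE_false]; omega
    · simp only [Finset.mem_inter, mem_RE_true]; omega)
  simpa using h

theorem Gz_v {n : ℕ} {u : ℤ × ℤ} {ρ : ℕ} {x y y' : ℤ} (h1 : (ρ:ℤ) ≤ y) (h2 : y ≤ n - ρ)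
    (h3 : (ρ:ℤ) ≤ y') (h4 : y' ≤ n - ρ) : Gz n u ρ (x, y') = Gz n u ρ (x, y) := by
  have h := Gz_shift (n := n) (u := u) (ρ := ρ) (z := (x, y)) (s := 0) (t := y' - y) (by
    ext ⟨a, b, t⟩
    rw [LSym.mem_mp, trl_φs]
    unfold blk
    cases t
    · simp only [Finset.mem_inter, mem_RE_false]; omega
    · simp only [Finset.mem_inter, mem_RE_true]; omega)
  simpa using h

/-- Decomposition of an interval into blocks. -/
theorem sum_blocks {n m : ℕ} {f : ℤ → ℝ} (hf : ∀ y, 0 ≤ f y) :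
    ∑ y ∈ Finset.Icc (0:ℤ) n, f y ≤ ∑ j ∈ Finset.range (n / (2 * m + 1) + 1),
      ∑ y ∈ Finset.Icc ((j:ℤ) * (2 * m + 1) + m - m) ((j:ℤ) * (2 * m + 1) + m + m), f y := by
  classical
  rw [← Finset.sum_biUnion]
  · apply Finset.sum_le_sum_of_subset_of_nonneg
    · intro y hy
      rw [Finset.mem_Icc] at hy
      rw [Finset.mem_biUnion]
      have hpos : (0:ℤ) < 2 * m + 1 := by positivity
      refine ⟨(y / (2 * m + 1)).toNat, ?_, ?_⟩
      · rw [Finset.mem_range]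
        have h1 : y / (2 * m + 1) ≤ (n:ℤ) / (2 * m + 1) := Int.ediv_le_ediv hpos hy.2
        have h2 : (0:ℤ) ≤ y / (2 * m + 1) := Int.ediv_nonneg hy.1 hpos.le
        have h3 : ((n / (2 * m + 1) : ℕ) : ℤ) = (n:ℤ) / (2 * m + 1) := by push_cast; rfl
        omega
      · have h2 : (0:ℤ) ≤ y / (2 * m + 1) := Int.ediv_nonneg hy.1 hpos.le
        rw [Int.toNat_of_nonneg h2, Finset.mem_Icc]
        have h4 := Int.ediv_mul_le y hpos.ne'
        have h5 := Int.lt_ediv_add_one_mul_self y hpos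
        constructor
        · linarith
        · linarith
    · intro y _ _
      exact hf y
  · intro i _ j _ hij
    rw [Function.onFun, Finset.disjoint_left]
    intro y hy hy'
    rw [Finset.mem_Icc] at hy hy'
    apply hij
    have h1 : (i:ℤ) * (2 * m + 1) ≤ y := by linarith
    have h2 : y < ((i:ℤ) + 1) * (2 * m + 1) := by linarith
    have h3 : (j:ℤ) * (2 * m + 1) ≤ y := by linarith
    have h4 : y < ((j:ℤ) + 1) * (2 * m + 1) := by linarith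
    have hpos : (0:ℤ) < 2 * m + 1 := by positivity
    have h5 : (i:ℤ) < j + 1 := by
      by_contra h
      push Not at h
      have := mul_le_mul_of_nonneg_right h hpos.le
      linarith
    have h6 : (j:ℤ) < i + 1 := by
      by_contra h
      push Not at h
      have := mul_le_mul_of_nonneg_right h hpos.le
      linarith
    omega

/-- The sum over the whole box. -/
theorem sum_tot {C : ℝ} (hC : ∀ (S : Finset Edg) (u : ℤ × ℤ), u.2 ≠ 0 → ∀ (m ρ : ℕ), 1 ≤ m →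
    4 * m ≤ ρ → ∀ c : ℤ × ℤ, ∑ z ∈ bx c m, PQ (1/2) S (fun F => XM u ρ z ↑F) ≤ C)
    {n : ℕ} {u : ℤ × ℤ} (hu : u.2 ≠ 0) {m ρ : ℕ} (hm : 1 ≤ m) (hρ : 4 * m ≤ ρ) :
    ∑ z ∈ Finset.Icc (0:ℤ) n ×ˢ Finset.Icc (0:ℤ) n, Gz n u ρ z ≤
      C * (((n / (2 * m + 1) + 1 : ℕ) : ℝ)) ^ 2 := by
  rw [Finset.sum_product]
  have h1 := sum_blocks (n := n) (m := m) (f := fun x => ∑ y ∈ Finset.Icc (0:ℤ) n, Gz n u ρ (x, y))
    (fun x => Finset.sum_nonneg fun y _ => Gz_nonneg _ _ _ _)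
  refine h1.trans ?_
  have h2 : ∀ i ∈ Finset.range (n / (2 * m + 1) + 1),
      ∑ x ∈ Finset.Icc ((i:ℤ) * (2 * m + 1) + m - m) ((i:ℤ) * (2 * m + 1) + m + m),
        ∑ y ∈ Finset.Icc (0:ℤ) n, Gz n u ρ (x, y) ≤
      ((n / (2 * m + 1) + 1 : ℕ) : ℝ) * C := by
    intro i _
    rw [Finset.sum_comm]
    have h3 := sum_blocks (n := n) (m := m) (f := fun y =>
      ∑ x ∈ Finset.Icc ((i:ℤ) * (2 * m + 1) + m - m) ((i:ℤ) * (2 * m + 1) + m + m),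
        Gz n u ρ (x, y))
      (fun y => Finset.sum_nonneg fun x _ => Gz_nonneg _ _ _ _)
    refine h3.trans ?_
    have h4 : ∀ j ∈ Finset.range (n / (2 * m + 1) + 1),
        ∑ y ∈ Finset.Icc ((j:ℤ) * (2 * m + 1) + m - m) ((j:ℤ) * (2 * m + 1) + m + m),
          ∑ x ∈ Finset.Icc ((i:ℤ) * (2 * m + 1) + m - m) ((i:ℤ) * (2 * m + 1) + m + m),
            Gz n u ρ (x, y) ≤ C := by
      intro j _
      have h5 := hC (RE 0 n 0 n) u hu m ρ hm hρ ((i:ℤ) * (2 * m + 1) + m, (j:ℤ) * (2 * m + 1) + m)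
      unfold bx at h5
      rw [Finset.sum_product_right] at h5
      exact h5
    have h6 := Finset.sum_le_sum h4
    rw [Finset.sum_const, Finset.card_range, nsmul_eq_mul] at h6
    exact h6
  have h7 := Finset.sum_le_sum h2
  rw [Finset.sum_const, Finset.card_range, nsmul_eq_mul] at h7
  refine h7.trans (le_of_eq ?_)
  ring

/-- The sum over a column. -/
theorem sum_col {C : ℝ} (hC : ∀ (S : Finset Edg) (u : ℤ × ℤ), u.2 ≠ 0 → ∀ (m ρ : ℕ), 1 ≤ m →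
    4 * m ≤ ρ → ∀ c : ℤ × ℤ, ∑ z ∈ bx c m, PQ (1/2) S (fun F => XM u ρ z ↑F) ≤ C)
    {n : ℕ} {u : ℤ × ℤ} (hu : u.2 ≠ 0) {m ρ : ℕ} (hm : 1 ≤ m) (hρ : 4 * m ≤ ρ)
    (hn : 2 * ρ + 2 * m ≤ n) {x : ℤ} (hx : (ρ:ℤ) ≤ x) (hx' : x ≤ n - ρ) :
    (2 * m + 1) * ∑ y ∈ Finset.Icc (0:ℤ) n, Gz n u ρ (x, y) ≤
      C * ((n / (2 * m + 1) + 1 : ℕ) : ℝ) := by
  have h1 := sum_blocks (n := n) (m := m) (f := fun y => Gz n u ρ (x, y))
    (fun y => Gz_nonneg _ _ _ _)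
  have h2 : ∀ j ∈ Finset.range (n / (2 * m + 1) + 1),
      (2 * m + 1) * ∑ y ∈ Finset.Icc ((j:ℤ) * (2 * m + 1) + m - m) ((j:ℤ) * (2 * m + 1) + m + m),
        Gz n u ρ (x, y) ≤ C := by
    intro j _
    have h5 := hC (RE 0 n 0 n) u hu m ρ hm hρ ((ρ:ℤ) + m, (j:ℤ) * (2 * m + 1) + m)
    unfold bx at h5
    rw [Finset.sum_product] at h5
    refine le_trans (le_of_eq ?_) h5
    have h6 : ∀ x' ∈ Finset.Icc ((ρ:ℤ) + m - m) ((ρ:ℤ) + m + m),
        ∑ y ∈ Finset.Icc ((j:ℤ) * (2 * m + 1) + m - m) ((j:ℤ) * (2 * m + 1) + m + m),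
          PQ (1/2) (RE 0 n 0 n) (fun F => XM u ρ (x', y) ↑F) =
        ∑ y ∈ Finset.Icc ((j:ℤ) * (2 * m + 1) + m - m) ((j:ℤ) * (2 * m + 1) + m + m),
          Gz n u ρ (x, y) := by
      intro x' hx'
      rw [Finset.mem_Icc] at hx'
      apply Finset.sum_congr rfl
      intro y _
      exact Gz_h hx (by omega) (by omega) (by omega)
    simp only
    rw [Finset.sum_congr rfl h6, Finset.sum_const, Int.card_Icc, nsmul_eq_mul]
    congr 1
    have : ((ρ:ℤ) + m + m + 1 - (ρ + m - m)).toNat = 2 * m + 1 := by omega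
    rw [this]
    push_cast
    ring
  calc (2 * m + 1) * ∑ y ∈ Finset.Icc (0:ℤ) n, Gz n u ρ (x, y)
      ≤ (2 * m + 1) * ∑ j ∈ Finset.range (n / (2 * m + 1) + 1),
      ∑ y ∈ Finset.Icc ((j:ℤ) * (2 * m + 1) + m - m) ((j:ℤ) * (2 * m + 1) + m + m),
        Gz n u ρ (x, y) := mul_le_mul_of_nonneg_left h1 (by positivity)
    _ = ∑ j ∈ Finset.range (n / (2 * m + 1) + 1), (2 * m + 1) *
      ∑ y ∈ Finset.Icc ((j:ℤ) * (2 * m + 1) + m - m) ((j:ℤ) * (2 * m + 1) + m + m),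
        Gz n u ρ (x, y) := by rw [Finset.mul_sum]
    _ ≤ ∑ j ∈ Finset.range (n / (2 * m + 1) + 1), C := Finset.sum_le_sum h2
    _ = C * ((n / (2 * m + 1) + 1 : ℕ) : ℝ) := by
        rw [Finset.sum_const, Finset.card_range, nsmul_eq_mul, mul_comm]

/-- The sum over a row. -/
theorem sum_row {C : ℝ} (hC : ∀ (S : Finset Edg) (u : ℤ × ℤ), u.2 ≠ 0 → ∀ (m ρ : ℕ), 1 ≤ m →
    4 * m ≤ ρ → ∀ c : ℤ × ℤ, ∑ z ∈ bx c m, PQ (1/2) S (fun F => XM u ρ z ↑F) ≤ C)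
    {n : ℕ} {u : ℤ × ℤ} (hu : u.2 ≠ 0) {m ρ : ℕ} (hm : 1 ≤ m) (hρ : 4 * m ≤ ρ)
    (hn : 2 * ρ + 2 * m ≤ n) {y : ℤ} (hy : (ρ:ℤ) ≤ y) (hy' : y ≤ n - ρ) :
    (2 * m + 1) * ∑ x ∈ Finset.Icc (0:ℤ) n, Gz n u ρ (x, y) ≤
      C * ((n / (2 * m + 1) + 1 : ℕ) : ℝ) := by
  have h1 := sum_blocks (n := n) (m := m) (f := fun x => Gz n u ρ (x, y))
    (fun y => Gz_nonneg _ _ _ _)
  have h2 : ∀ j ∈ Finset.range (n / (2 * m + 1) + 1),
      (2 * m + 1) * ∑ x ∈ Finset.Icc ((j:ℤ) * (2 * m + 1) + m - m) ((j:ℤ) * (2 * m + 1) + m + m),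
        Gz n u ρ (x, y) ≤ C := by
    intro j _
    have h5 := hC (RE 0 n 0 n) u hu m ρ hm hρ ((j:ℤ) * (2 * m + 1) + m, (ρ:ℤ) + m)
    unfold bx at h5
    rw [Finset.sum_product_right] at h5
    refine le_trans (le_of_eq ?_) h5
    have h6 : ∀ y' ∈ Finset.Icc ((ρ:ℤ) + m - m) ((ρ:ℤ) + m + m),
        ∑ x ∈ Finset.Icc ((j:ℤ) * (2 * m + 1) + m - m) ((j:ℤ) * (2 * m + 1) + m + m),
          PQ (1/2) (RE 0 n 0 n) (fun F => XM u ρ (x, y') ↑F) =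
        ∑ x ∈ Finset.Icc ((j:ℤ) * (2 * m + 1) + m - m) ((j:ℤ) * (2 * m + 1) + m + m),
          Gz n u ρ (x, y) := by
      intro y' hy'
      rw [Finset.mem_Icc] at hy'
      apply Finset.sum_congr rfl
      intro x _
      exact Gz_v hy (by omega) (by omega) (by omega)
    simp only
    rw [Finset.sum_congr rfl h6, Finset.sum_const, Int.card_Icc, nsmul_eq_mul]
    congr 1
    have : ((ρ:ℤ) + m + m + 1 - (ρ + m - m)).toNat = 2 * m + 1 := by omega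
    rw [this]
    push_cast
    ring
  calc (2 * m + 1) * ∑ x ∈ Finset.Icc (0:ℤ) n, Gz n u ρ (x, y)
      ≤ (2 * m + 1) * ∑ j ∈ Finset.range (n / (2 * m + 1) + 1),
      ∑ x ∈ Finset.Icc ((j:ℤ) * (2 * m + 1) + m - m) ((j:ℤ) * (2 * m + 1) + m + m),
        Gz n u ρ (x, y) := mul_le_mul_of_nonneg_left h1 (by positivity)
    _ = ∑ j ∈ Finset.range (n / (2 * m + 1) + 1), (2 * m + 1) *
      ∑ x ∈ Finset.Icc ((j:ℤ) * (2 * m + 1) + m - m) ((j:ℤ) * (2 * m + 1) + m + m),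
        Gz n u ρ (x, y) := by rw [Finset.mul_sum]
    _ ≤ ∑ j ∈ Finset.range (n / (2 * m + 1) + 1), C := Finset.sum_le_sum h2
    _ = C * ((n / (2 * m + 1) + 1 : ℕ) : ℝ) := by
        rw [Finset.sum_const, Finset.card_range, nsmul_eq_mul, mul_comm]

end Pool.Agent.H950.NT
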