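import Pool.Agent.H950.NT.Row

/-!
Sums over strips.
-/

set_option autoImplicit false

namespace Pool.Agent.H950.NT

open H974 H12S Finset H342P

theorem card_strip {c : ℤ} (hc : c ≠ 0) (A B a b W : ℤ) (hW : 0 ≤ W) :
    (((Finset.Icc A B).filter (fun x => a ≤ c * x + b ∧ c * x + b ≤ a + W)).card : ℝ) ≤
      (W : ℝ) / |(c:ℝ)| + 1 := by
  set T := (Finset.Icc A B).filter (fun x => a ≤ c * x + b ∧ c * x + b ≤ a + W) with hT
  have hcpos : (0:ℤ) < |c| := abs_pos.mpr hc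
  rcases T.eq_empty_or_nonempty with h | h
  · rw [h, Finset.card_empty]
    have h1 : (0:ℝ) ≤ (W:ℝ) / |(c:ℝ)| := div_nonneg (by exact_mod_cast hW) (abs_nonneg _)
    push_cast
    linarith
  · obtain ⟨x0, hx0, hmin⟩ := T.exists_min_image id h
    have hsub : T ⊆ Finset.Icc x0 (x0 + W / |c|) := by
      intro x hx
      have h1 : x0 ≤ x := hmin x hx
      rw [hT, Finset.mem_filter] at hx hx0
      rw [Finset.mem_Icc]
      refine ⟨h1, ?_⟩
      have h2 : |c * (x - x0)| ≤ W := by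
        rw [abs_le]
        have e : c * (x - x0) = (c * x + b) - (c * x0 + b) := by ring
        rw [e]
        constructor
        · linarith [hx.2.1, hx0.2.2]
        · linarith [hx.2.2, hx0.2.1]
      rw [abs_mul, abs_of_nonneg (sub_nonneg.mpr h1)] at h2
      have h3 : x - x0 ≤ W / |c| := by
        rw [Int.le_ediv_iff_mul_le hcpos]
        linarith
      linarith
    have h1 := Finset.card_le_card hsub
    rw [Int.card_Icc] at h1
    have h2 : (0:ℤ) ≤ W / |c| := Int.ediv_nonneg hW hcpos.le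
    have h3 : ((T.card : ℕ) : ℤ) ≤ W / |c| + 1 := by
      have : (x0 + W / |c| + 1 - x0).toNat = (W / |c| + 1).toNat := by congr 1; ring
      rw [this] at h1
      have h4 : (((W / |c| + 1).toNat : ℕ) : ℤ) = W / |c| + 1 := Int.toNat_of_nonneg (by omega)
      rw [← h4]
      exact_mod_cast h1
    have h4 : ((T.card : ℕ) : ℝ) ≤ ((W / |c| : ℤ) : ℝ) + 1 := by exact_mod_cast h3
    have h5 : ((W / |c| : ℤ) : ℝ) ≤ (W:ℝ) / |(c:ℝ)| := by
      rw [le_div_iff₀ (by exact_mod_cast hcpos), ← Int.cast_abs]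
      exact_mod_cast Int.ediv_mul_le W hcpos.ne'
    linarith

/-- Coordinates at distance at least `ρ` from the ends. -/
def InI (n ρ : ℕ) (x : ℤ) : Prop := (ρ:ℤ) ≤ x ∧ x ≤ (n:ℤ) - ρ

/-- The vertices which are not near a corner. -/
def NCor (n ρ : ℕ) (z : Vtx) : Prop := InI n ρ z.1 ∨ InI n ρ z.2

/-- The bound for the sum over a strip. -/
noncomputable def SB (C : ℝ) (n m : ℕ) (u : ℤ × ℤ) (W : ℤ) : ℝ :=
  ((W : ℝ) / |(u.1:ℝ)| + 1 + ((W : ℝ) / |(u.2:ℝ)| + 1)) *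
    (C * ((n / (2 * m + 1) + 1 : ℕ) : ℝ) / (2 * m + 1))

open Classical in
theorem sum_strip {C : ℝ} (hC : ∀ (S : Finset Edg) (u : ℤ × ℤ), u.2 ≠ 0 → ∀ (m ρ : ℕ), 1 ≤ m →
    4 * m ≤ ρ → ∀ c : ℤ × ℤ, ∑ z ∈ bx c m, PQ (1/2) S (fun F => XM u ρ z ↑F) ≤ C)
    {n : ℕ} {u : ℤ × ℤ} (hu1 : u.1 ≠ 0) (hu : u.2 ≠ 0) {m ρ : ℕ} (hm : 1 ≤ m) (hρ : 4 * m ≤ ρ)
    (hn : 2 * ρ + 2 * m ≤ n) (a W : ℤ) (hW : 0 ≤ W) :
    ∑ z ∈ (Finset.Icc (0:ℤ) n ×ˢ Finset.Icc (0:ℤ) n).filter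
      (fun z : ℤ × ℤ => NCor n ρ z ∧ a ≤ ip u z ∧ ip u z ≤ a + W), Gz n u ρ z ≤ SB C n m u W := by
  have hpos : (0:ℝ) < 2 * m + 1 := by positivity
  -- first part
  have p1 : ∑ z ∈ (Finset.Icc (0:ℤ) n ×ˢ Finset.Icc (0:ℤ) n).filter
      (fun z : ℤ × ℤ => InI n ρ z.1 ∧ a ≤ ip u z ∧ ip u z ≤ a + W), Gz n u ρ z ≤
      ((W : ℝ) / |(u.1:ℝ)| + 1) * (C * ((n / (2 * m + 1) + 1 : ℕ) : ℝ) / (2 * m + 1)) := by
    rw [Finset.sum_filter, Finset.sum_product_right]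
    have h1 : ∀ y ∈ Finset.Icc (0:ℤ) n, ∑ x ∈ Finset.Icc (0:ℤ) n,
        (if (InI n ρ x ∧ a ≤ ip u (x, y) ∧ ip u (x, y) ≤ a + W) then
          Gz n u ρ (x, y) else 0) ≤ ((W : ℝ) / |(u.1:ℝ)| + 1) * Gz n u ρ ((ρ:ℤ), y) := by
      intro y _
      have h2 : ∀ x ∈ Finset.Icc (0:ℤ) n,
          (if (InI n ρ x ∧ a ≤ ip u (x, y) ∧ ip u (x, y) ≤ a + W) then
          Gz n u ρ (x, y) else 0) ≤
          (if (a ≤ u.1 * x + u.2 * y ∧ u.1 * x + u.2 * y ≤ a + W) then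
            Gz n u ρ ((ρ:ℤ), y) else 0) := by
        intro x _
        split_ifs with h3 h4 h4
        · exact (Gz_h (by omega) (by omega) h3.1.1 h3.1.2).le
        · exact absurd h3.2 h4
        · exact Gz_nonneg _ _ _ _
        · exact le_rfl
      refine (Finset.sum_le_sum h2).trans ?_
      rw [← Finset.sum_filter, Finset.sum_const, nsmul_eq_mul]
      exact mul_le_mul_of_nonneg_right (card_strip hu1 _ _ _ _ _ hW) (Gz_nonneg _ _ _ _)
    refine (Finset.sum_le_sum h1).trans ?_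
    rw [← Finset.mul_sum]
    apply mul_le_mul_of_nonneg_left
    · rw [le_div_iff₀ hpos, mul_comm]
      exact sum_col hC hu hm hρ hn le_rfl (by omega)
    · have : (0:ℝ) ≤ (W:ℝ) / |(u.1:ℝ)| := div_nonneg (by exact_mod_cast hW) (abs_nonneg _)
      linarith
  have p2 : ∑ z ∈ (Finset.Icc (0:ℤ) n ×ˢ Finset.Icc (0:ℤ) n).filter
      (fun z : ℤ × ℤ => InI n ρ z.2 ∧ a ≤ ip u z ∧ ip u z ≤ a + W), Gz n u ρ z ≤
      ((W : ℝ) / |(u.2:ℝ)| + 1) * (C * ((n / (2 * m + 1) + 1 : ℕ) : ℝ) / (2 * m + 1)) := by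
    rw [Finset.sum_filter, Finset.sum_product]
    have h1 : ∀ x ∈ Finset.Icc (0:ℤ) n, ∑ y ∈ Finset.Icc (0:ℤ) n,
        (if (InI n ρ y ∧ a ≤ ip u (x, y) ∧ ip u (x, y) ≤ a + W) then
          Gz n u ρ (x, y) else 0) ≤ ((W : ℝ) / |(u.2:ℝ)| + 1) * Gz n u ρ (x, (ρ:ℤ)) := by
      intro x _
      have h2 : ∀ y ∈ Finset.Icc (0:ℤ) n,
          (if (InI n ρ y ∧ a ≤ ip u (x, y) ∧ ip u (x, y) ≤ a + W) then
          Gz n u ρ (x, y) else 0) ≤
          (if (a ≤ u.2 * y + u.1 * x ∧ u.2 * y + u.1 * x ≤ a + W) then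
            Gz n u ρ (x, (ρ:ℤ)) else 0) := by
        intro y _
        split_ifs with h3 h4 h4
        · exact (Gz_v (by omega) (by omega) h3.1.1 h3.1.2).le
        · exfalso
          apply h4
          have := h3.2
          unfold ip at this
          simp only at this
          constructor
          · linarith [this.1]
          · linarith [this.2]
        · exact Gz_nonneg _ _ _ _
        · exact le_rfl
      refine (Finset.sum_le_sum h2).trans ?_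
      rw [← Finset.sum_filter, Finset.sum_const, nsmul_eq_mul]
      exact mul_le_mul_of_nonneg_right (card_strip hu _ _ _ _ _ hW) (Gz_nonneg _ _ _ _)
    refine (Finset.sum_le_sum h1).trans ?_
    rw [← Finset.mul_sum]
    apply mul_le_mul_of_nonneg_left
    · rw [le_div_iff₀ hpos, mul_comm]
      exact sum_row hC hu hm hρ hn le_rfl (by omega)
    · have : (0:ℝ) ≤ (W:ℝ) / |(u.2:ℝ)| := div_nonneg (by exact_mod_cast hW) (abs_nonneg _)
      linarith
  unfold SB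
  rw [add_mul]
  refine le_trans ?_ (add_le_add p1 p2)
  rw [Finset.sum_filter, Finset.sum_filter, Finset.sum_filter, ← Finset.sum_add_distrib]
  apply Finset.sum_le_sum
  intro z _
  have h0 := Gz_nonneg n u ρ z
  by_cases hs : a ≤ ip u z ∧ ip u z ≤ a + W
  · by_cases hA : InI n ρ z.1
    · rw [if_pos ⟨Or.inl hA, hs⟩, if_pos ⟨hA, hs⟩]
      split_ifs <;> linarith
    · by_cases hB : InI n ρ z.2
      · rw [if_pos ⟨Or.inr hB, hs⟩, if_neg (fun h => hA h.1), if_pos ⟨hB, hs⟩]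
        linarith
      · rw [if_neg (fun h => h.1.elim hA hB)]
        split_ifs <;> linarith
  · rw [if_neg (fun h => hs h.2)]
    split_ifs <;> linarith

end Pool.Agent.H950.NT
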