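import Pool.Graph.R_seed8.H12R2.Sep.H3
import Pool.Graph.R_seed8.H12R2.Sep.WinHalf
import Pool.Graph.R_seed8.H12R2.Sep.BlkSum
import Pool.Graph.R_seed8.H342R2.Per.Plain

/-!
Extremal vertices of clusters in a fixed direction: in every box the expected number of vertices
which are extremal in their cluster, and whose cluster is large, is bounded.
-/

set_option autoImplicit false

namespace Pool.Agent.H950.NT

open H974 H12S Finset H342P

/-- Scalar product. -/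
def ip (u z : ℤ × ℤ) : ℤ := u.1 * z.1 + u.2 * z.2

/-- `w` is not above `z` in the direction `u` (ties are broken by the first coordinate). -/
def Lx (u z w : ℤ × ℤ) : Prop := ip u w < ip u z ∨ (ip u w = ip u z ∧ w.1 ≤ z.1)

theorem Lx_refl (u z : ℤ × ℤ) : Lx u z z := Or.inr ⟨rfl, le_rfl⟩

theorem Lx_le {u z w : ℤ × ℤ} (h : Lx u z w) : ip u w ≤ ip u z := by
  rcases h with h | ⟨h, -⟩
  · exact h.le
  · exact h.le

theorem Lx_antisymm {u z w : ℤ × ℤ} (hu : u.2 ≠ 0) (h1 : Lx u z w) (h2 : Lx u w z) : z = w := by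
  have e1 : ip u w = ip u z := le_antisymm (Lx_le h1) (Lx_le h2)
  have e2 : w.1 = z.1 := by
    rcases h1 with h | ⟨-, h⟩
    · exact absurd e1 h.ne
    · rcases h2 with h' | ⟨-, h'⟩
      · exact absurd e1.symm h'.ne
      · exact le_antisymm h h'
  unfold ip at e1
  rw [e2] at e1
  have e3 : u.2 * w.2 = u.2 * z.2 := by linarith
  have e4 : w.2 = z.2 := mul_left_cancel₀ hu e3
  exact Prod.ext e2.symm e4.symm

theorem Lx_total (u z w : ℤ × ℤ) : Lx u z w ∨ Lx u w z := by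
  unfold Lx
  rcases lt_trichotomy (ip u w) (ip u z) with h | h | h
  · exact Or.inl (Or.inl h)
  · rcases le_total w.1 z.1 with h' | h'
    · exact Or.inl (Or.inr ⟨h, h'⟩)
    · exact Or.inr (Or.inr ⟨h.symm, h'⟩)
  · exact Or.inr (Or.inl h)

theorem Lx_trans {u x y z : ℤ × ℤ} (h1 : Lx u x y) (h2 : Lx u y z) : Lx u x z := by
  unfold Lx at *
  omega

/-- A finite nonempty set has an extremal point. -/
theorem exists_Lx (u : ℤ × ℤ) {X : Finset (ℤ × ℤ)} (hX : X.Nonempty) :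
    ∃ z ∈ X, ∀ w ∈ X, Lx u z w := by
  classical
  induction X using Finset.induction_on with
  | empty => exact absurd hX (by simp)
  | insert a X _ ih =>
    rcases X.eq_empty_or_nonempty with h | h
    · subst h
      refine ⟨a, by simp, ?_⟩
      intro w hw
      simp at hw
      rw [hw]
      exact Lx_refl _ _
    · obtain ⟨z, hz, hmax⟩ := ih h
      rcases Lx_total u z a with h1 | h1
      · refine ⟨z, Finset.mem_insert_of_mem hz, ?_⟩
        intro w hw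
        rcases Finset.mem_insert.mp hw with rfl | hw
        · exact h1
        · exact hmax w hw
      · refine ⟨a, Finset.mem_insert_self _ _, ?_⟩
        intro w hw
        rcases Finset.mem_insert.mp hw with rfl | hw
        · exact Lx_refl _ _
        · exact Lx_trans h1 (hmax w hw)

/-- `z` is the extremal vertex in the direction `u` of its cluster in the box of radius `ρ`
around `z`, and this cluster reaches distance `ρ`. -/
def XM (u : ℤ × ℤ) (ρ : ℕ) (z : Vtx) (F : Set Edg) : Prop :=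
  (∀ w, Reach (F ∩ ↑(blk z ρ)) z w → Lx u z w) ∧ ∃ w, Far z ρ w ∧ Reach (F ∩ ↑(blk z ρ)) z w

/-- The vertices at distance at most `m`. -/
noncomputable def bx (c : ℤ × ℤ) (m : ℕ) : Finset Vtx :=
  Finset.Icc (c.1 - m) (c.1 + m) ×ˢ Finset.Icc (c.2 - m) (c.2 + m)

theorem mem_bx {c : ℤ × ℤ} {m : ℕ} {v : Vtx} :
    v ∈ bx c m ↔ inR (c.1 - m) (c.1 + m) (c.2 - m) (c.2 + m) v := by
  unfold bx inR
  rw [Finset.mem_product, Finset.mem_Icc, Finset.mem_Icc]

/-- The boundary of the box of radius `m`. -/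
def bdd (c : ℤ × ℤ) (m : ℕ) : Set Vtx := {v | inR (c.1 - m) (c.1 + m) (c.2 - m) (c.2 + m) v ∧
  (v.1 = c.1 - m ∨ v.1 = c.1 + m ∨ v.2 = c.2 - m ∨ v.2 = c.2 + m)}

theorem coe_int (F S : Finset Edg) : ((↑(F ∩ S) : Set Edg)) = ↑F ∩ ↑S := by
  exact_mod_cast rfl

theorem blk_sub {c c' : ℤ × ℤ} {m m' : ℕ} (h : ∀ v, inR (c.1 - m) (c.1 + m) (c.2 - m) (c.2 + m) v →
    inR (c'.1 - m') (c'.1 + m') (c'.2 - m') (c'.2 + m') v) : blk c m ⊆ blk c' m' := by
  have h1 := h (c.1 - m, c.2 - m) (by unfold inR; simp only; omega)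
  have h2 := h (c.1 + m, c.2 + m) (by unfold inR; simp only; omega)
  unfold inR at h1 h2
  simp only at h1 h2
  unfold blk
  exact RE_subset (by omega) (by omega) (by omega) (by omega)

theorem XM_small {u : ℤ × ℤ} {m ρ : ℕ} (hρ : 4 * m ≤ ρ) {c z : ℤ × ℤ} (hz : z ∈ bx c m)
    {F : Set Edg} (h : XM u ρ z F) :
    (∀ w, Reach (F ∩ ↑(blk c (3 * m))) z w → Lx u z w) ∧
      ∃ w ∈ bdd c (3 * m), Reach (F ∩ ↑(blk c (3 * m))) z w := by
  rw [mem_bx] at hz
  unfold inR at hz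
  have hsub : blk c (3 * m) ⊆ blk z ρ := by
    apply blk_sub
    intro v hv
    unfold inR at hv ⊢
    push_cast at hv
    omega
  have hsub' : (↑(blk c (3 * m)) : Set Edg) ⊆ ↑(blk z ρ) := by exact_mod_cast hsub
  obtain ⟨h1, w, hw, h2⟩ := h
  refine ⟨fun w hw => h1 w (hw.mono (Set.inter_subset_inter_right _ hsub')), ?_⟩
  unfold Far at hw
  obtain ⟨w', hw', hb, hr⟩ := first_exit (a := c.1 - (3 * m : ℕ)) (b := c.1 + (3 * m : ℕ))
    (c := c.2 - (3 * m : ℕ)) (d := c.2 + (3 * m : ℕ))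
    (by unfold inR; push_cast; omega) h2 (by push_cast; omega)
  refine ⟨w', ⟨hw', hb⟩, hr.mono ?_⟩
  rintro e ⟨⟨h3, _⟩, h4⟩
  exact ⟨h3, h4⟩

theorem XM_mono {u : ℤ × ℤ} {ρ ρ' : ℕ} (hρ : ρ' ≤ ρ) {z : Vtx} {F : Set Edg} (h : XM u ρ z F) :
    XM u ρ' z F := by
  have hsub : blk z ρ' ⊆ blk z ρ := by
    apply blk_sub
    intro v hv
    unfold inR at hv ⊢
    omega
  have hsub' : (↑(blk z ρ') : Set Edg) ⊆ ↑(blk z ρ) := by exact_mod_cast hsub
  obtain ⟨h1, w, hw, h2⟩ := h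
  refine ⟨fun w hw => h1 w (hw.mono (Set.inter_subset_inter_right _ hsub')), ?_⟩
  unfold Far at hw
  obtain ⟨w', hw', hb, hr⟩ := first_exit (a := z.1 - ρ') (b := z.1 + ρ')
    (c := z.2 - ρ') (d := z.2 + ρ')
    (by unfold inR; omega) h2 (by omega)
  refine ⟨w', ?_, hr.mono ?_⟩
  · unfold Far
    omega
  · rintro e ⟨⟨h3, _⟩, h4⟩
    exact ⟨h3, h4⟩

/-- The number of extremal vertices with a large cluster is at most the number of crossing
clusters. -/
theorem count {u : ℤ × ℤ} (hu : u.2 ≠ 0) {m ρ : ℕ} (hρ : 4 * m ≤ ρ) (c : ℤ × ℤ) (F : Finset Edg) :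
    ∑ z ∈ bx c m, ind (XM u ρ z (↑F : Set Edg)) ≤
      (NC src tgt (bx c m) (bdd c (3 * m)) (↑(F ∩ blk c (3 * m)) : Set Edg) : ℝ) := by
  classical
  have h1 : ∑ z ∈ bx c m, ind (XM u ρ z (↑F : Set Edg)) =
      (((bx c m).filter (fun z => XM u ρ z (↑F : Set Edg))).card : ℝ) := by
    rw [Finset.card_filter]
    push_cast
    apply Finset.sum_congr rfl
    intro k _
    unfold ind
    split_ifs <;> rfl
  rw [h1]
  unfold NC
  norm_cast
  rw [coe_int]
  apply Finset.card_le_card_of_injOn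
    (fun z => clu src tgt ((↑F : Set Edg) ∩ ↑(blk c (3 * m))) z)
  · intro z hz
    rw [Finset.mem_coe, Finset.mem_filter] at hz
    rw [Finset.mem_coe, mem_TC]
    obtain ⟨-, w, hw, hr⟩ := XM_small hρ hz.1 hz.2
    exact ⟨z, hz.1, ⟨w, hw, hr⟩, rfl⟩
  · intro z hz z' hz' hzz
    rw [Finset.mem_coe, Finset.mem_filter] at hz hz'
    simp only at hzz
    obtain ⟨h2, -⟩ := XM_small hρ hz.1 hz.2
    obtain ⟨h3, -⟩ := XM_small hρ hz'.1 hz'.2
    have h4 : z' ∈ clu src tgt ((↑F : Set Edg) ∩ ↑(blk c (3 * m))) z := by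
      rw [hzz]; exact GR.refl _ _
    have h5 : z ∈ clu src tgt ((↑F : Set Edg) ∩ ↑(blk c (3 * m))) z' := by
      rw [← hzz]; exact GR.refl _ _
    exact Lx_antisymm hu (h2 z' h4) (h3 z h5)

/-- The expected number of extremal vertices. -/
theorem ex_XM : ∃ C : ℝ, 1 ≤ C ∧ ∀ (S : Finset Edg) (u : ℤ × ℤ), u.2 ≠ 0 → ∀ (m ρ : ℕ), 1 ≤ m →
    4 * m ≤ ρ → ∀ c : ℤ × ℤ, ∑ z ∈ bx c m, PQ (1/2) S (fun F => XM u ρ z ↑F) ≤ C := by
  classical
  obtain ⟨κ, hκ, hW⟩ := win_half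
  have hk4 : 0 < κ ^ 4 := by positivity
  refine ⟨2 / (1 - (1 - κ ^ 4)) ^ 2 + 1, le_add_of_nonneg_left (by positivity), ?_⟩
  intro S u hu m ρ hm hρ c
  have ok : Ok (fun _ : Edg => (1/2:ℝ)) := okq (by norm_num) (by norm_num)
  have hlam : PQ (1/2) S (fun F => ∃ x ∈ bx c m, RB src tgt (bdd c (3 * m))
      (↑F : Set Edg) x) ≤ 1 - κ ^ 4 := by
    have k1 := (win_blk (hW (2 * m)) hm le_rfl c.1 c.2 S).1
    rw [PQ, Pr_not] at k1
    have k2 : PQ (1/2) S (fun F => ∃ x ∈ bx c m, RB src tgt (bdd c (3 * m)) (↑F : Set Edg) x) ≤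
        PQ (1/2) S (fun F => Crs c.1 c.2 m (3 * m) ↑F) := by
      apply Pr_mono ok
      rintro F _ ⟨x, hx, b, ⟨-, hb⟩, hr⟩
      rw [mem_bx] at hx
      refine ⟨x, b, hx, ?_, hr⟩
      push_cast at hb ⊢
      omega
    unfold PQ at k2 ⊢
    linarith
  have h2 : Ex (fun _ : Edg => (1/2:ℝ)) S
      (fun F => ((NC src tgt (bx c m) (bdd c (3 * m)) (↑(F ∩ blk c (3 * m)) : Set Edg) : ℕ) : ℝ)^2) ≤
      2 / (1 - (1 - κ ^ 4)) ^ 2 := by
    have e1 : Ex (fun _ : Edg => (1/2:ℝ)) S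
      (fun F => ((NC src tgt (bx c m) (bdd c (3 * m)) (↑(F ∩ blk c (3 * m)) : Set Edg) : ℕ) : ℝ)^2) =
        Ex (fun _ : Edg => (1/2:ℝ)) (S ∩ blk c (3 * m))
      (fun F => ((NC src tgt (bx c m) (bdd c (3 * m)) (↑(F ∩ blk c (3 * m)) : Set Edg) : ℕ) : ℝ)^2) := by
      apply Ex_local Finset.inter_subset_left
      intro F hF
      have : F ∩ (S ∩ blk c (3 * m)) ∩ blk c (3 * m) = F ∩ blk c (3 * m) := by
        ext x
        simp only [Finset.mem_inter]
        constructor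
        · rintro ⟨⟨h1, h2, h3⟩, h4⟩; exact ⟨h1, h4⟩
        · rintro ⟨h1, h2⟩; exact ⟨⟨h1, hF h1, h2⟩, h2⟩
      rw [this]
    have e2 : Ex (fun _ : Edg => (1/2:ℝ)) (S ∩ blk c (3 * m))
      (fun F => ((NC src tgt (bx c m) (bdd c (3 * m)) (↑(F ∩ blk c (3 * m)) : Set Edg) : ℕ) : ℝ)^2) =
        Ex (fun _ : Edg => (1/2:ℝ)) (S ∩ blk c (3 * m))
      (fun F => ((NC src tgt (bx c m) (bdd c (3 * m)) (↑F : Set Edg) : ℕ) : ℝ)^2) := by
      apply Ex_congr
      intro F hF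
      have : F ∩ blk c (3 * m) = F :=
        Finset.inter_eq_left.mpr (hF.trans Finset.inter_subset_right)
      rw [this]
    rw [e1, e2]
    apply NC_sq ok _ _ _ _ _ (by linarith)
    refine le_trans ?_ hlam
    have k1 := Pr_mono_set ok (S := S ∩ blk c (3 * m)) (T := S) Finset.inter_subset_left
      (A := fun F : Finset Edg => ∃ x ∈ bx c m, RB src tgt (bdd c (3 * m)) (↑F : Set Edg) x) (by
        rintro F G h _ ⟨x, hx, b, hb, hr⟩
        exact ⟨x, hx, b, hb, hr.mono (by exact_mod_cast h)⟩)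
    exact k1
  have h3 : ∑ z ∈ bx c m, PQ (1/2) S (fun F => XM u ρ z ↑F) ≤ Ex (fun _ : Edg => (1/2:ℝ)) S
      (fun F => ((NC src tgt (bx c m) (bdd c (3 * m)) (↑(F ∩ blk c (3 * m)) : Set Edg) : ℕ) : ℝ)^2) := by
    unfold PQ Pr
    rw [← Ex_sum]
    apply Ex_mono ok
    intro F _
    refine (count hu hρ c F).trans ?_
    exact_mod_cast Nat.le_self_pow (by norm_num) _
  linarith

end Pool.Agent.H950.NT
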